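import Mathlib
import Pool.Agent.Helper69.TS.Stmts
import Pool.Agent.Helper70.AS.space
import Pool.Agent.Helper95.AS.fej

/-! Module lsieve of MP_d7f79e_TS: the additive large sieve by duality and the Fejer kernel. -/

set_option autoImplicit false

namespace Pool.Agent.Helper94.TS.lsieve

open Finset Pool.Agent.Helper64.AS Pool.Agent.Helper69.TS

variable {ι : Type}

theorem norm_sq_c (w : ℂ) : ((‖w‖ ^ 2 : ℝ) : ℂ) = w * (starRingEnd ℂ) w := by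
  rw [Complex.mul_conj, Complex.normSq_eq_norm_sq]

theorem normSq_sum (hee : ∀ x y : ℝ, ee (x + y) = ee x * ee y)
    (hconj : ∀ x : ℝ, (starRingEnd ℂ) (ee x) = ee (-x))
    (R : Finset ι) (c : ι → ℂ) (x : ι → ℝ) (y : ℝ) :
    ((‖∑ r ∈ R, c r * ee (y * x r)‖ ^ 2 : ℝ) : ℂ)
      = ∑ r ∈ R, ∑ s ∈ R, c r * (starRingEnd ℂ) (c s) * ee (y * (x r - x s)) := by
  rw [norm_sq_c, map_sum, Finset.sum_mul_sum]
  refine sum_congr rfl fun r _ => sum_congr rfl fun s _ => ?_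
  have e : y * (x r - x s) = y * x r + -(y * x s) := by ring
  rw [map_mul, hconj, e, hee]
  ring

theorem sum_shift (g : ℝ → ℝ) (hg : ∀ y, 0 ≤ g y) (Z : ℕ) :
    (Z : ℝ) * ∑ n ∈ range Z, g n
      ≤ ∑ i ∈ range (2 * Z), ∑ j ∈ range (2 * Z), g ((i : ℝ) - j) := by
  rw [sum_comm]
  have h1 : ∀ j ∈ range Z, ∑ n ∈ range Z, g n ≤ ∑ i ∈ range (2 * Z), g ((i : ℝ) - j) := by
    intro j hj
    rw [mem_range] at hj
    have e1 : ∑ n ∈ range Z, g n = ∑ n ∈ Ico 0 Z, g (((n + j : ℕ) : ℝ) - j) := by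
      rw [range_eq_Ico]
      refine sum_congr rfl fun n _ => ?_
      congr 1
      push_cast
      ring
    rw [e1, sum_Ico_add' (fun i : ℕ => g ((i : ℝ) - j)) 0 Z j]
    apply sum_le_sum_of_subset_of_nonneg
    · intro i hi
      rw [mem_Ico] at hi
      rw [mem_range]
      omega
    · intro i _ _
      exact hg _
  calc (Z : ℝ) * ∑ n ∈ range Z, g n = ∑ _j ∈ range Z, ∑ n ∈ range Z, g n := by
        rw [sum_const, card_range, nsmul_eq_mul]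
    _ ≤ ∑ j ∈ range Z, ∑ i ∈ range (2 * Z), g ((i : ℝ) - j) := sum_le_sum h1
    _ ≤ ∑ j ∈ range (2 * Z), ∑ i ∈ range (2 * Z), g ((i : ℝ) - j) := by
        apply sum_le_sum_of_subset_of_nonneg
        · intro i hi
          rw [mem_range] at hi ⊢
          omega
        · intro i _ _
          exact sum_nonneg fun _ _ => hg _

/-- the dual inequality -/
theorem dual (hfej : S_fej) (hsp : S_space) (R : Finset ι) (x : ι → ℝ) (δ : ℝ) (Z : ℕ)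
    (hδ : 0 < δ) (hZ : 1 ≤ δ * Z)
    (hsep : ∀ r ∈ R, ∀ s ∈ R, r ≠ s → ∀ k : ℤ, δ ≤ |x r - x s - k|) (c : ι → ℂ) :
    ∑ n ∈ range Z, ‖∑ r ∈ R, c r * ee ((n : ℝ) * x r)‖ ^ 2 ≤ 60 * Z * ∑ r ∈ R, ‖c r‖ ^ 2 := by
  obtain ⟨hee, -, -, hconj, hnn, -, -, hdbl, -⟩ := hfej
  have hZ0 : (0 : ℝ) < Z := by
    by_contra h
    have h1 : (Z : ℝ) ≤ 0 := not_lt.1 h
    nlinarith
  have hZ1 : 1 ≤ Z := by
    have : 0 < Z := by exact_mod_cast hZ0
    omega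
  have hδ1 : 1 / δ ≤ Z := by
    rw [div_le_iff₀ hδ]; linarith
  set g : ℝ → ℝ := fun y => ‖∑ r ∈ R, c r * ee (y * x r)‖ ^ 2 with hg
  have h1 := sum_shift g (fun y => by simp only [hg]; positivity) Z
  have h2 : ((∑ i ∈ range (2 * Z), ∑ j ∈ range (2 * Z), g ((i : ℝ) - j) : ℝ) : ℂ)
      = ∑ r ∈ R, ∑ s ∈ R, c r * (starRingEnd ℂ) (c s)
        * (((2 * Z : ℕ) * fej (2 * Z) (x r - x s) : ℝ) : ℂ) := by
    rw [Complex.ofReal_sum]
    simp only [Complex.ofReal_sum, hg, normSq_sum hee hconj]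
    have e1 : ∀ i ∈ range (2 * Z), ∑ j ∈ range (2 * Z), ∑ r ∈ R, ∑ s ∈ R,
        c r * (starRingEnd ℂ) (c s) * ee (((i : ℝ) - j) * (x r - x s))
        = ∑ r ∈ R, ∑ s ∈ R, ∑ j ∈ range (2 * Z),
        c r * (starRingEnd ℂ) (c s) * ee (((i : ℝ) - j) * (x r - x s)) := by
      intro i _
      rw [sum_comm]
      refine sum_congr rfl fun r _ => ?_
      rw [sum_comm]
    rw [sum_congr rfl e1, sum_comm]
    refine sum_congr rfl fun r _ => ?_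
    rw [sum_comm]
    refine sum_congr rfl fun s _ => ?_
    rw [← hdbl (2 * Z) (x r - x s) (by omega), mul_sum]
    refine sum_congr rfl fun i _ => ?_
    rw [mul_sum]
  have h3 : ∑ i ∈ range (2 * Z), ∑ j ∈ range (2 * Z), g ((i : ℝ) - j)
      ≤ ∑ r ∈ R, ∑ s ∈ R, ‖c r‖ * ‖c s‖ * ((2 * Z : ℕ) * fej (2 * Z) (x r - x s)) := by
    have h4 : 0 ≤ ∑ i ∈ range (2 * Z), ∑ j ∈ range (2 * Z), g ((i : ℝ) - j) :=
      sum_nonneg fun _ _ => sum_nonneg fun _ _ => by simp only [hg]; positivity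
    have h5 : ∑ i ∈ range (2 * Z), ∑ j ∈ range (2 * Z), g ((i : ℝ) - j)
        = ‖((∑ i ∈ range (2 * Z), ∑ j ∈ range (2 * Z), g ((i : ℝ) - j) : ℝ) : ℂ)‖ := by
      rw [Complex.norm_real, Real.norm_of_nonneg h4]
    rw [h5, h2]
    refine (norm_sum_le _ _).trans (sum_le_sum fun r _ => ?_)
    refine (norm_sum_le _ _).trans (sum_le_sum fun s _ => ?_)
    rw [norm_mul, norm_mul, RCLike.norm_conj, Complex.norm_real, Real.norm_of_nonneg]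
    have := hnn (2 * Z) (x r - x s)
    positivity
  have h6 : ∑ r ∈ R, ∑ s ∈ R, ‖c r‖ * ‖c s‖ * ((2 * Z : ℕ) * fej (2 * Z) (x r - x s))
      ≤ ∑ r ∈ R, ∑ s ∈ R, (‖c r‖ ^ 2 / 2 * ((2 * Z : ℕ) * fej (2 * Z) (x r - x s))
        + ‖c s‖ ^ 2 / 2 * ((2 * Z : ℕ) * fej (2 * Z) (x r - x s))) := by
    refine sum_le_sum fun r _ => sum_le_sum fun s _ => ?_
    rw [← add_mul]
    apply mul_le_mul_of_nonneg_right
    · nlinarith [sq_nonneg (‖c r‖ - ‖c s‖)]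
    · have := hnn (2 * Z) (x r - x s)
      positivity
  have h7 : ∀ r ∈ R, ∑ s ∈ R, fej (2 * Z) (x r - x s) ≤ 30 * Z := by
    intro r hr
    have := hsp ι R (fun s => x r - x s) δ (2 * Z) hδ (by omega) (by
      intro p hp q hq hpq k
      have h8 := hsep q hq p hp hpq.symm k
      have e : x r - x p - (x r - x q) - k = x q - x p - k := by ring
      rw [e]; exact h8)
    push_cast at this
    linarith
  have h7' : ∀ s ∈ R, ∑ r ∈ R, fej (2 * Z) (x r - x s) ≤ 30 * Z := by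
    intro s hs
    have := hsp ι R (fun r => x r - x s) δ (2 * Z) hδ (by omega) (by
      intro p hp q hq hpq k
      have h8 := hsep p hp q hq hpq k
      have e : x p - x s - (x q - x s) - k = x p - x q - k := by ring
      rw [e]; exact h8)
    push_cast at this
    linarith
  have h8 : ∑ r ∈ R, ∑ s ∈ R, (‖c r‖ ^ 2 / 2 * ((2 * Z : ℕ) * fej (2 * Z) (x r - x s))
        + ‖c s‖ ^ 2 / 2 * ((2 * Z : ℕ) * fej (2 * Z) (x r - x s)))
      ≤ 60 * Z ^ 2 * ∑ r ∈ R, ‖c r‖ ^ 2 := by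
    simp only [sum_add_distrib]
    have h9 : ∑ r ∈ R, ∑ s ∈ R, ‖c r‖ ^ 2 / 2 * ((2 * Z : ℕ) * fej (2 * Z) (x r - x s))
        ≤ ∑ r ∈ R, 30 * Z ^ 2 * ‖c r‖ ^ 2 := by
      refine sum_le_sum fun r hr => ?_
      rw [← mul_sum, ← mul_sum]
      push_cast
      have := h7 r hr
      have h10 : 0 ≤ ‖c r‖ ^ 2 := by positivity
      calc ‖c r‖ ^ 2 / 2 * (2 * (Z : ℝ) * ∑ s ∈ R, fej (2 * Z) (x r - x s))
          ≤ ‖c r‖ ^ 2 / 2 * (2 * (Z : ℝ) * (30 * Z)) := by gcongr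
        _ = 30 * (Z : ℝ) ^ 2 * ‖c r‖ ^ 2 := by ring
    have h9' : ∑ r ∈ R, ∑ s ∈ R, ‖c s‖ ^ 2 / 2 * ((2 * Z : ℕ) * fej (2 * Z) (x r - x s))
        ≤ ∑ r ∈ R, 30 * Z ^ 2 * ‖c r‖ ^ 2 := by
      rw [sum_comm]
      refine sum_le_sum fun s hs => ?_
      rw [← mul_sum, ← mul_sum]
      push_cast
      have := h7' s hs
      have h10 : 0 ≤ ‖c s‖ ^ 2 := by positivity
      calc ‖c s‖ ^ 2 / 2 * (2 * (Z : ℝ) * ∑ r ∈ R, fej (2 * Z) (x r - x s))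
          ≤ ‖c s‖ ^ 2 / 2 * (2 * (Z : ℝ) * (30 * Z)) := by gcongr
        _ = 30 * (Z : ℝ) ^ 2 * ‖c s‖ ^ 2 := by ring
    rw [← mul_sum] at h9 h9'
    linarith
  have h10 : (Z : ℝ) * ∑ n ∈ range Z, g n ≤ Z * (60 * Z * ∑ r ∈ R, ‖c r‖ ^ 2) := by
    have e : (Z : ℝ) * (60 * Z * ∑ r ∈ R, ‖c r‖ ^ 2) = 60 * Z ^ 2 * ∑ r ∈ R, ‖c r‖ ^ 2 := by
      ring
    rw [e]
    exact h1.trans (h3.trans (h6.trans h8))
  exact le_of_mul_le_mul_left h10 hZ0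

theorem lsieve_of (hfej : S_fej) (hsp : S_space) : S_lsieve := by
  intro ι R x δ Z hδ hZ hsep A
  set S : ι → ℂ := fun r => ∑ n ∈ range Z, A n * ee ((n : ℝ) * x r) with hS
  set L : ℝ := ∑ r ∈ R, ‖S r‖ ^ 2 with hL
  set D : ℕ → ℂ := fun n => ∑ r ∈ R, (starRingEnd ℂ) (S r) * ee ((n : ℝ) * x r) with hD
  have hL0 : 0 ≤ L := sum_nonneg fun _ _ => by positivity
  have h1 : ((L : ℝ) : ℂ) = ∑ n ∈ range Z, A n * D n := by
    rw [hL, Complex.ofReal_sum]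
    have e1 : ∀ r ∈ R, ((‖S r‖ ^ 2 : ℝ) : ℂ)
        = ∑ n ∈ range Z, A n * ((starRingEnd ℂ) (S r) * ee ((n : ℝ) * x r)) := by
      intro r _
      rw [norm_sq_c]
      conv_lhs => rw [hS]
      simp only
      rw [sum_mul]
      refine sum_congr rfl fun n _ => ?_
      ring
    rw [sum_congr rfl e1, sum_comm]
    refine sum_congr rfl fun n _ => ?_
    rw [hD, mul_sum]
  have h2 : L ≤ ∑ n ∈ range Z, ‖A n‖ * ‖D n‖ := by
    have h3 : L = ‖((L : ℝ) : ℂ)‖ := by rw [Complex.norm_real, Real.norm_of_nonneg hL0]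
    rw [h3, h1]
    refine (norm_sum_le _ _).trans (sum_le_sum fun n _ => ?_)
    rw [norm_mul]
  have h4 : (∑ n ∈ range Z, ‖A n‖ * ‖D n‖) ^ 2
      ≤ (∑ n ∈ range Z, ‖A n‖ ^ 2) * ∑ n ∈ range Z, ‖D n‖ ^ 2 :=
    sum_mul_sq_le_sq_mul_sq _ _ _
  have h5 : ∑ n ∈ range Z, ‖D n‖ ^ 2 ≤ 60 * Z * L := by
    have := dual hfej hsp R x δ Z hδ hZ hsep (fun r => (starRingEnd ℂ) (S r))
    simpa only [RCLike.norm_conj] using this
  have hA0 : 0 ≤ ∑ n ∈ range Z, ‖A n‖ ^ 2 := sum_nonneg fun _ _ => by positivity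
  have h6 : L ^ 2 ≤ (∑ n ∈ range Z, ‖A n‖ ^ 2) * (60 * Z * L) := by
    calc L ^ 2 ≤ (∑ n ∈ range Z, ‖A n‖ * ‖D n‖) ^ 2 := by gcongr
      _ ≤ _ := h4
      _ ≤ _ := by gcongr
  change L ≤ 60 * Z * ∑ n ∈ range Z, ‖A n‖ ^ 2
  rcases hL0.eq_or_lt with h | h
  · rw [← h]; positivity
  · have h7 : L * L ≤ (60 * Z * ∑ n ∈ range Z, ‖A n‖ ^ 2) * L := by nlinarith
    exact le_of_mul_le_mul_right h7 h

theorem lsieve : S_lsieve :=
  lsieve_of Pool.Agent.Helper95.AS.s_fej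
    (Pool.Agent.Helper70.AS.space.space Pool.Agent.Helper95.AS.s_fej)

end Pool.Agent.Helper94.TS.lsieve
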