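import Mathlib
import Pool.Agent.Helper69.TS.Stmts

/-! Module csieve of MP_d7f79e_TS: the large sieve for the characters of prime moduli. -/

set_option autoImplicit false

namespace Pool.Agent.Helper94.TS.csieve

open Finset Pool.Agent.Helper64.AS Pool.Agent.Helper69.TS

theorem norm_sq_c (w : ℂ) : ((‖w‖ ^ 2 : ℝ) : ℂ) = w * (starRingEnd ℂ) w := by
  rw [Complex.mul_conj, Complex.normSq_eq_norm_sq]

section One

variable (p : ℕ) [hp : Fact p.Prime]

/-- Parseval for the additive characters -/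
theorem parseval (F : ZMod p → ℂ) :
    ∑ b : ZMod p, ‖∑ h, F h * (ZMod.stdAddChar (b * h) : ℂ)‖ ^ 2 = p * ∑ h, ‖F h‖ ^ 2 := by
  have key : ((∑ b : ZMod p, ‖∑ h, F h * (ZMod.stdAddChar (b * h) : ℂ)‖ ^ 2 : ℝ) : ℂ)
      = ((p * ∑ h, ‖F h‖ ^ 2 : ℝ) : ℂ) := by
    rw [Complex.ofReal_sum]
    have e1 : ∀ b : ZMod p, ((‖∑ h, F h * (ZMod.stdAddChar (b * h) : ℂ)‖ ^ 2 : ℝ) : ℂ)
        = ∑ h, ∑ h', F h * (starRingEnd ℂ) (F h') * (ZMod.stdAddChar (b * (h - h')) : ℂ) := by
      intro b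
      rw [norm_sq_c, map_sum, sum_mul_sum]
      refine sum_congr rfl fun h _ => sum_congr rfl fun h' _ => ?_
      have e : b * (h - h') = b * h + -(b * h') := by ring
      rw [map_mul (starRingEnd ℂ), e, AddChar.map_add_eq_mul, AddChar.map_neg_eq_conj]
      ring
    simp only [e1]
    rw [sum_comm]
    have e2 : ∀ h : ZMod p, ∑ b : ZMod p, ∑ h', F h * (starRingEnd ℂ) (F h')
        * (ZMod.stdAddChar (b * (h - h')) : ℂ) = p * (F h * (starRingEnd ℂ) (F h)) := by
      intro h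
      rw [sum_comm]
      simp only [← mul_sum]
      have e3 : ∀ h' : ZMod p, ∑ b : ZMod p, (ZMod.stdAddChar (b * (h - h')) : ℂ)
          = if h = h' then (p : ℂ) else 0 := by
        intro h'
        have h1 := AddChar.sum_mulShift (ψ := (ZMod.stdAddChar : AddChar (ZMod p) ℂ)) (h - h')
          (ZMod.isPrimitive_stdAddChar p)
        rw [h1]
        by_cases hh : h = h'
        · simp [hh, ZMod.card]
        · have : h - h' ≠ 0 := sub_ne_zero.2 hh
          simp [this, hh]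
      simp only [e3, mul_ite, mul_zero]
      rw [sum_ite_eq]
      simp only [mem_univ, if_true]
      ring
    simp only [e2]
    rw [← mul_sum]
    push_cast
    congr 1
    refine sum_congr rfl fun h _ => ?_
    rw [← norm_sq_c]
    push_cast
    rfl
  exact_mod_cast key

open Classical in
/-- Parseval for the Dirichlet characters -/
theorem parseval_char (F : ZMod p → ℂ) :
    ∑ χ : DirichletCharacter ℂ p, ‖∑ h, F h * χ h‖ ^ 2 ≤ p * ∑ h, ‖F h‖ ^ 2 := by
  have key : ((∑ χ : DirichletCharacter ℂ p, ‖∑ h, F h * χ h‖ ^ 2 : ℝ) : ℂ)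
      = ((((p : ℝ) - 1) * ∑ h ∈ univ.erase (0 : ZMod p), ‖F h‖ ^ 2 : ℝ) : ℂ) := by
    rw [Complex.ofReal_sum]
    have e1 : ∀ χ : DirichletCharacter ℂ p, ((‖∑ h, F h * χ h‖ ^ 2 : ℝ) : ℂ)
        = ∑ h, ∑ h', F h * (starRingEnd ℂ) (F h') * (χ (h'⁻¹) * χ h) := by
      intro χ
      rw [norm_sq_c, map_sum, sum_mul_sum]
      refine sum_congr rfl fun h _ => sum_congr rfl fun h' _ => ?_
      have e : (starRingEnd ℂ) (χ h') = χ (h'⁻¹) := by
        have h1 := MulChar.star_apply' χ h'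
        rw [MulChar.inv_apply'] at h1
        exact h1
      rw [map_mul, e]
      ring
    simp only [e1]
    rw [sum_comm]
    have e2 : ∀ h : ZMod p, ∑ χ : DirichletCharacter ℂ p, ∑ h', F h * (starRingEnd ℂ) (F h')
        * (χ (h'⁻¹) * χ h) = if h = 0 then 0 else ((p : ℂ) - 1) * (F h * (starRingEnd ℂ) (F h)) := by
      intro h
      rw [sum_comm]
      simp only [← mul_sum]
      have e3 : ∀ h' : ZMod p, ∑ χ : DirichletCharacter ℂ p, (χ (h'⁻¹) * χ h)
          = if h = h' then (if h = 0 then 0 else ((p : ℂ) - 1)) else 0 := by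
        intro h'
        by_cases h0 : h' = 0
        · subst h0
          have : ∀ χ : DirichletCharacter ℂ p, χ ((0 : ZMod p)⁻¹) * χ h = 0 := by
            intro χ
            rw [inv_zero]
            have : χ (0 : ZMod p) = 0 := MulCharClass.map_nonunit χ (by simp)
            rw [this, zero_mul]
          simp only [this, sum_const_zero]
          by_cases hh : h = 0 <;> simp [hh]
        · have h1 := DirichletCharacter.sum_char_inv_mul_char_eq ℂ
            (isUnit_iff_ne_zero.2 h0) h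
          rw [h1, Nat.totient_prime hp.out]
          by_cases hh : h' = h
          · subst hh
            simp only [if_true, if_neg h0]
            rw [Nat.cast_sub hp.out.one_lt.le, Nat.cast_one]
          · rw [if_neg hh, if_neg (fun e => hh e.symm)]
      simp only [e3, mul_ite, mul_zero]
      rw [sum_ite_eq]
      simp only [mem_univ, if_true]
      by_cases h0 : h = 0
      · simp [h0]
      · simp only [if_neg h0]
        ring
    simp only [e2]
    have e4 := sum_erase (univ : Finset (ZMod p)) (f := fun h : ZMod p =>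
      if h = 0 then 0 else ((p : ℂ) - 1) * (F h * (starRingEnd ℂ) (F h))) (a := 0) (by simp)
    rw [← e4]
    push_cast
    rw [mul_sum]
    refine sum_congr rfl fun h hh => ?_
    rw [if_neg (ne_of_mem_erase hh), ← norm_sq_c]
    push_cast
    rfl
  have key' : ∑ χ : DirichletCharacter ℂ p, ‖∑ h, F h * χ h‖ ^ 2
      = ((p : ℝ) - 1) * ∑ h ∈ univ.erase (0 : ZMod p), ‖F h‖ ^ 2 := by exact_mod_cast key
  rw [key']
  have h1 : ∑ h ∈ univ.erase (0 : ZMod p), ‖F h‖ ^ 2 ≤ ∑ h, ‖F h‖ ^ 2 :=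
    sum_le_sum_of_subset_of_nonneg (erase_subset _ _) (fun _ _ _ => by positivity)
  have h2 : 0 ≤ ∑ h ∈ univ.erase (0 : ZMod p), ‖F h‖ ^ 2 := sum_nonneg fun _ _ => by positivity
  have h3 : (0 : ℝ) ≤ p := Nat.cast_nonneg p
  nlinarith

open Classical in
/-- the non-trivial characters against the non-trivial frequencies -/
theorem char_le (F : ZMod p → ℂ) :
    ∑ χ : DirichletCharacter ℂ p, (if χ = 1 then 0 else ‖∑ h, F h * χ h‖ ^ 2)
      ≤ ∑ b ∈ univ.erase (0 : ZMod p), ‖∑ h, F h * (ZMod.stdAddChar (b * h) : ℂ)‖ ^ 2 := by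
  have hp0 : (p : ℂ) ≠ 0 := by exact_mod_cast hp.out.ne_zero
  set m : ℂ := (∑ h, F h) / p with hm
  set G : ZMod p → ℂ := fun h => F h - m with hG
  have hG0 : ∑ h, G h = 0 := by
    simp only [hG, sum_sub_distrib, sum_const, card_univ, ZMod.card, nsmul_eq_mul, hm]
    field_simp
    ring
  have h1 : ∀ χ : DirichletCharacter ℂ p, (if χ = 1 then 0 else ‖∑ h, F h * χ h‖ ^ 2)
      ≤ ‖∑ h, G h * χ h‖ ^ 2 := by
    intro χ
    by_cases hχ : χ = 1
    · rw [if_pos hχ]; positivity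
    · rw [if_neg hχ]
      have e : ∑ h, G h * χ h = ∑ h, F h * χ h := by
        simp only [hG, sub_mul, sum_sub_distrib]
        rw [← mul_sum, MulChar.sum_eq_zero_of_ne_one hχ, mul_zero, sub_zero]
      rw [e]
  have h2 : ∀ b ∈ univ.erase (0 : ZMod p), ‖∑ h, G h * (ZMod.stdAddChar (b * h) : ℂ)‖ ^ 2
      = ‖∑ h, F h * (ZMod.stdAddChar (b * h) : ℂ)‖ ^ 2 := by
    intro b hb
    have hb0 := ne_of_mem_erase hb
    have e : ∑ h : ZMod p, (ZMod.stdAddChar (b * h) : ℂ) = 0 := by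
      have h3 := AddChar.sum_mulShift (ψ := (ZMod.stdAddChar : AddChar (ZMod p) ℂ)) b
          (ZMod.isPrimitive_stdAddChar p)
      rw [if_neg hb0] at h3
      simp only [mul_comm b]
      exact_mod_cast h3
    have e' : ∑ h, G h * (ZMod.stdAddChar (b * h) : ℂ)
        = ∑ h, F h * (ZMod.stdAddChar (b * h) : ℂ) := by
      simp only [hG, sub_mul, sum_sub_distrib]
      rw [← mul_sum, e, mul_zero, sub_zero]
    rw [e']
  have h3 : ∑ b ∈ univ.erase (0 : ZMod p), ‖∑ h, G h * (ZMod.stdAddChar (b * h) : ℂ)‖ ^ 2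
      = p * ∑ h, ‖G h‖ ^ 2 := by
    rw [← parseval p G]
    apply sum_erase
    simp [hG0]
  calc _ ≤ ∑ χ : DirichletCharacter ℂ p, ‖∑ h, G h * χ h‖ ^ 2 := sum_le_sum fun χ _ => h1 χ
    _ ≤ p * ∑ h, ‖G h‖ ^ 2 := parseval_char p G
    _ = _ := by rw [← h3, sum_congr rfl h2]

end One

/-- grouping by residues -/
theorem group (p : ℕ) [NeZero p] (Z : ℕ) (A : ℕ → ℂ) (f : ZMod p → ℂ) :
    ∑ n ∈ range Z, A n * f (n : ZMod p)
      = ∑ h : ZMod p, (∑ n ∈ (range Z).filter (fun n : ℕ => (n : ZMod p) = h), A n) * f h := by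
  rw [← sum_fiberwise (range Z) (fun n : ℕ => (n : ZMod p))]
  refine sum_congr rfl fun h _ => ?_
  rw [sum_mul]
  refine sum_congr rfl fun n hn => ?_
  rw [(mem_filter.1 hn).2]

theorem ee_std (p : ℕ) [NeZero p] (n b : ℕ) :
    ee ((n : ℝ) * ((b : ℝ) / p)) = (ZMod.stdAddChar ((b : ZMod p) * (n : ZMod p)) : ℂ) := by
  have h := ZMod.stdAddChar_coe (N := p) ((b : ℤ) * n)
  have e : (((b : ℤ) * n : ℤ) : ZMod p) = (b : ZMod p) * (n : ZMod p) := by push_cast; rfl
  rw [e] at h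
  rw [h, ee]
  congr 1
  push_cast
  ring

theorem sum_erase_zero (p : ℕ) [hp : Fact p.Prime] (g : ZMod p → ℝ) :
    ∑ b ∈ univ.erase (0 : ZMod p), g b = ∑ b ∈ Ico 1 p, g (b : ZMod p) := by
  symm
  apply sum_bij (fun (b : ℕ) _ => (b : ZMod p))
  · intro b hb
    rw [mem_Ico] at hb
    rw [mem_erase]
    refine ⟨?_, mem_univ _⟩
    intro h0
    rw [ZMod.natCast_eq_zero_iff] at h0
    exact absurd (Nat.le_of_dvd (by omega) h0) (by omega)
  · intro b hb b' hb' h
    rw [mem_Ico] at hb hb'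
    rw [ZMod.natCast_eq_natCast_iff'] at h
    rwa [Nat.mod_eq_of_lt hb.2, Nat.mod_eq_of_lt hb'.2] at h
  · intro b hb
    have hb0 := ne_of_mem_erase hb
    refine ⟨b.val, ?_, ?_⟩
    · rw [mem_Ico]
      refine ⟨?_, b.val_lt⟩
      have : b.val ≠ 0 := by
        intro h
        exact hb0 ((ZMod.val_eq_zero b).1 h)
      omega
    · exact ZMod.natCast_zmod_val b
  · intro b hb
    rfl

open Classical in
theorem one_prime (p : ℕ) (hp : p.Prime) (Z : ℕ) (A : ℕ → ℂ) :
    ∑ χ : DirichletCharacter ℂ p, (if χ = 1 then 0 else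
      ‖∑ n ∈ range Z, A n * χ (n : ZMod p)‖ ^ 2)
      ≤ ∑ b ∈ Ico 1 p, ‖∑ n ∈ range Z, A n * ee ((n : ℝ) * ((b : ℝ) / p))‖ ^ 2 := by
  have : Fact p.Prime := ⟨hp⟩
  have h := char_le p (fun h => ∑ n ∈ (range Z).filter (fun n : ℕ => (n : ZMod p) = h), A n)
  rw [sum_erase_zero] at h
  refine le_trans (le_of_eq ?_) (h.trans (le_of_eq ?_))
  · refine sum_congr rfl fun χ _ => ?_
    by_cases hχ : χ = 1
    · rw [if_pos hχ, if_pos hχ]
    · rw [if_neg hχ, if_neg hχ, group p Z A χ]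
  · refine sum_congr rfl fun b _ => ?_
    rw [← group p Z A (fun h => (ZMod.stdAddChar ((b : ZMod p) * h) : ℂ))]
    simp only [ee_std]

/-- the points `b / p` are separated -/
theorem sep (P : Finset ℕ) (Q : ℕ) (hQ : 1 ≤ Q) (hP : ∀ p ∈ P, p.Prime ∧ p ≤ 2 * Q) :
    ∀ r ∈ P.sigma (fun p => Ico 1 p), ∀ s ∈ P.sigma (fun p => Ico 1 p), r ≠ s → ∀ k : ℤ,
      1 / (4 * (Q : ℝ) ^ 2) ≤ |(r.2 : ℝ) / r.1 - (s.2 : ℝ) / s.1 - k| := by
  rintro ⟨p, b⟩ hr ⟨q, c⟩ hs hne k
  simp only [mem_sigma, mem_Ico] at hr hs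
  obtain ⟨hp, hb1, hb2⟩ := hr
  obtain ⟨hq, hc1, hc2⟩ := hs
  obtain ⟨hpp, hp2⟩ := hP p hp
  obtain ⟨hqp, hq2⟩ := hP q hq
  have hp0 : (0 : ℝ) < p := by exact_mod_cast hpp.pos
  have hq0 : (0 : ℝ) < q := by exact_mod_cast hqp.pos
  have hQ0 : (0 : ℝ) < Q := by exact_mod_cast hQ
  have e : (b : ℝ) / p - (c : ℝ) / q - k = (((b : ℤ) * q - c * p - k * (p * q) : ℤ) : ℝ) / (p * q) := by
    push_cast
    field_simp
  have hz : ((b : ℤ) * q - c * p - k * (p * q) : ℤ) ≠ 0 := by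
    intro h0
    have hpZ : Prime (p : ℤ) := Nat.prime_iff_prime_int.1 hpp
    have h1 : (p : ℤ) ∣ b * q := ⟨c + k * q, by linarith⟩
    rcases hpZ.dvd_or_dvd h1 with h2 | h2
    · have h3 : p ∣ b := by exact_mod_cast h2
      exact absurd (Nat.le_of_dvd (by omega) h3) (by omega)
    · have h3 : p ∣ q := by exact_mod_cast h2
      have h4 : p = q := (Nat.prime_dvd_prime_iff_eq hpp hqp).1 h3
      subst h4
      have h5 : (p : ℤ) * ((b : ℤ) - c - k * p) = 0 := by linarith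
      have h6 : (b : ℤ) - c - k * p = 0 := by
        rcases mul_eq_zero.1 h5 with h7 | h7
        · exact absurd h7 (by exact_mod_cast hpp.ne_zero)
        · exact h7
      have h7 : k = 0 := by
        by_contra hk
        have h8 : (b : ℤ) - c = k * p := by linarith
        have h9 : |(b : ℤ) - c| < p := by
          rw [abs_lt]; constructor <;> omega
        rw [h8, abs_mul] at h9
        have h10 : 1 ≤ |k| := Int.one_le_abs hk
        have h11 : |(p : ℤ)| = p := abs_of_nonneg (by omega)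
        rw [h11] at h9
        nlinarith
      subst h7
      have h8 : b = c := by omega
      subst h8
      exact hne rfl
  rw [e, abs_div, abs_of_pos (by positivity : (0 : ℝ) < p * q)]
  have h1 : (1 : ℝ) ≤ |(((b : ℤ) * q - c * p - k * (p * q) : ℤ) : ℝ)| := by
    rw [← Int.cast_abs]
    exact_mod_cast Int.one_le_abs hz
  have h2 : (p : ℝ) * q ≤ 4 * (Q : ℝ) ^ 2 := by
    have h3 : (p : ℝ) ≤ 2 * Q := by exact_mod_cast hp2
    have h4 : (q : ℝ) ≤ 2 * Q := by exact_mod_cast hq2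
    nlinarith
  rw [div_le_div_iff₀ (by positivity) (by positivity)]
  nlinarith

theorem csieve (h : S_lsieve) : S_csieve := by
  intro P Q Z hQ hP hZ A
  have hQ0 : (0 : ℝ) < Q := by exact_mod_cast hQ
  have h1 := h (Σ _ : ℕ, ℕ) (P.sigma (fun p => Ico 1 p)) (fun r => (r.2 : ℝ) / r.1)
    (1 / (4 * (Q : ℝ) ^ 2)) Z (by positivity) (by
      rw [one_div, inv_mul_eq_div, le_div_iff₀ (by positivity)]
      have : ((4 * Q ^ 2 : ℕ) : ℝ) ≤ Z := by exact_mod_cast hZ
      push_cast at this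
      linarith) (sep P Q hQ hP) A
  rw [sum_sigma] at h1
  exact (sum_le_sum fun p hp => one_prime p (hP p hp).1 Z A).trans h1

end Pool.Agent.Helper94.TS.csieve
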