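import Mathlib
import Pool.Agent.Helper69.TS.Stmts

/-! Module spec_bad of MP_d7f79e_TS: the number of exceptional moduli. -/

set_option autoImplicit false

namespace Pool.Agent.Helper94.TS.spec_bad

open Finset Pool.Agent.Helper64.AS Pool.Agent.Helper69.TS

/-- number of `l`-tuples of elements of `W` with product `n` -/
def cnt (W : Finset ℕ) (l n : ℕ) : ℕ :=
  ((Fintype.piFinset (fun _ : Fin l => W)).filter (fun f => ∏ i, f i = n)).card

theorem prod_lt {W : Finset ℕ} {H l : ℕ} (hW : ∀ w ∈ W, 1 ≤ w ∧ w ≤ H) {f : Fin l → ℕ}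
    (hf : f ∈ Fintype.piFinset (fun _ : Fin l => W)) : 1 ≤ ∏ i, f i ∧ ∏ i, f i ≤ H ^ l := by
  rw [Fintype.mem_piFinset] at hf
  constructor
  · exact Nat.succ_le_of_lt (Finset.prod_pos fun i _ => Nat.lt_of_lt_of_le Nat.zero_lt_one (hW _ (hf i)).1)
  · calc ∏ i, f i ≤ ∏ _i : Fin l, H := prod_le_prod' fun i _ => (hW _ (hf i)).2
      _ = H ^ l := by simp

theorem pow_sum (p : ℕ) (W : Finset ℕ) (l Z H : ℕ) (hW : ∀ w ∈ W, 1 ≤ w ∧ w ≤ H) (hZ : H ^ l < Z)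
    (χ : DirichletCharacter ℂ p) :
    (∑ w ∈ W, χ (w : ZMod p)) ^ l = ∑ n ∈ range Z, (cnt W l n : ℂ) * χ (n : ZMod p) := by
  have h1 : (∑ w ∈ W, χ (w : ZMod p)) ^ l = ∏ _i : Fin l, ∑ w ∈ W, χ (w : ZMod p) := by simp
  rw [h1, prod_univ_sum]
  have h2 : ∀ f ∈ Fintype.piFinset (fun _ : Fin l => W), ∏ i, χ ((f i : ℕ) : ZMod p)
      = χ ((∏ i, f i : ℕ) : ZMod p) := by
    intro f _
    push_cast
    rw [map_prod]
  rw [sum_congr rfl h2, ← sum_fiberwise_of_maps_to (s := Fintype.piFinset (fun _ : Fin l => W))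
    (t := range Z) (g := fun f => ∏ i, f i) (by
      intro f hf
      have := (prod_lt hW hf).2
      rw [mem_range]
      omega)]
  refine sum_congr rfl fun n _ => ?_
  rw [cnt]
  rw [sum_congr rfl (g := fun _ => χ (n : ZMod p)) (by
    intro f hf
    rw [(mem_filter.1 hf).2])]
  rw [sum_const, nsmul_eq_mul]

theorem sum_cnt (W : Finset ℕ) (l Z H : ℕ) (hW : ∀ w ∈ W, 1 ≤ w ∧ w ≤ H) (hZ : H ^ l < Z) :
    ∑ n ∈ range Z, cnt W l n = W.card ^ l := by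
  have h1 : (Fintype.piFinset (fun _ : Fin l => W)).card = W.card ^ l := by
    rw [Fintype.card_piFinset]; simp
  rw [← h1, card_eq_sum_card_fiberwise (f := fun f : Fin l → ℕ => ∏ i, f i) (t := range Z)]
  · rfl
  · intro f hf
    have := (prod_lt hW hf).2
    simp only [coe_range, Set.mem_Iio]
    omega

theorem cnt_le (W : Finset ℕ) (l H D : ℕ) (hW : ∀ w ∈ W, 1 ≤ w ∧ w ≤ H)
    (hD : ∀ n : ℕ, n ≠ 0 → n ≤ H ^ l → n.divisors.card ≤ D) (n : ℕ) :
    cnt W l n ≤ D ^ l := by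
  by_cases h : ((Fintype.piFinset (fun _ : Fin l => W)).filter (fun f => ∏ i, f i = n)).Nonempty
  · obtain ⟨f, hf⟩ := h
    obtain ⟨hf1, hf2⟩ := mem_filter.1 hf
    have h1 := prod_lt hW hf1
    rw [hf2] at h1
    have h2 : (Fintype.piFinset (fun _ : Fin l => W)).filter (fun f => ∏ i, f i = n)
        ⊆ Fintype.piFinset (fun _ : Fin l => n.divisors) := by
      intro g hg
      obtain ⟨hg1, hg2⟩ := mem_filter.1 hg
      rw [Fintype.mem_piFinset]
      intro i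
      rw [Nat.mem_divisors]
      refine ⟨?_, by omega⟩
      rw [← hg2]
      exact dvd_prod_of_mem g (mem_univ i)
    calc cnt W l n ≤ (Fintype.piFinset (fun _ : Fin l => n.divisors)).card := card_le_card h2
      _ = n.divisors.card ^ l := by rw [Fintype.card_piFinset]; simp
      _ ≤ D ^ l := Nat.pow_le_pow_left (hD n (by omega) h1.2) l
  · rw [not_nonempty_iff_eq_empty] at h
    rw [cnt, h, card_empty]
    exact Nat.zero_le _

open Classical in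
theorem spec_bad (h1 : S_csieve) (h2 : S_spec_of_char) : S_spec_bad := by
  intro P Q W H l κ D hQ hP hW hH hl hκ hD
  set Z : ℕ := H ^ l + 4 * Q ^ 2 with hZ
  have hQ2 : 1 ≤ Q ^ 2 := Nat.one_le_pow _ _ hQ
  have hZ1 : H ^ l < Z := by omega
  set bad := P.filter (fun p => ¬ Spec p W κ) with hbad
  have h3 := h1 bad Q Z hQ (fun p hp => ⟨(hP p (mem_filter.1 hp).1).1,
    (hP p (mem_filter.1 hp).1).2.2⟩) (by omega) (fun n => (cnt W l n : ℂ))
  have h4 : ∀ p ∈ bad, (κ * (W.card : ℝ) ^ 2) ^ l ≤ ∑ χ : DirichletCharacter ℂ p,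
      (if χ = 1 then 0 else ‖∑ n ∈ range Z, (cnt W l n : ℂ) * χ (n : ZMod p)‖ ^ 2) := by
    intro p hp
    obtain ⟨hpP, hpS⟩ := mem_filter.1 hp
    obtain ⟨hpp, hpQ, hpQ2⟩ := hP p hpP
    have h5 : ∃ χ : DirichletCharacter ℂ p, χ ≠ 1 ∧
        κ * (W.card : ℝ) ^ 2 < ‖∑ w ∈ W, χ (w : ZMod p)‖ ^ 2 := by
      by_contra hcon
      push Not at hcon
      exact hpS (h2 p W κ hpp hκ.le (fun w hw => ⟨(hW w hw).1, by have := (hW w hw).2; omega⟩) hcon)
    obtain ⟨χ, hχ, h6⟩ := h5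
    have h7 : (κ * (W.card : ℝ) ^ 2) ^ l ≤ ‖∑ n ∈ range Z, (cnt W l n : ℂ) * χ (n : ZMod p)‖ ^ 2 := by
      rw [← pow_sum p W l Z H hW hZ1 χ, norm_pow, ← pow_mul, mul_comm l 2, pow_mul]
      exact pow_le_pow_left₀ (by positivity) h6.le l
    refine h7.trans ?_
    have h8 : ‖∑ n ∈ range Z, (cnt W l n : ℂ) * χ (n : ZMod p)‖ ^ 2
        = (if χ = 1 then 0 else ‖∑ n ∈ range Z, (cnt W l n : ℂ) * χ (n : ZMod p)‖ ^ 2) := by
      rw [if_neg hχ]
    rw [h8]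
    exact single_le_sum (f := fun χ : DirichletCharacter ℂ p =>
      (if χ = 1 then (0 : ℝ) else ‖∑ n ∈ range Z, (cnt W l n : ℂ) * χ (n : ZMod p)‖ ^ 2))
      (fun χ _ => by
        by_cases hχ : χ = 1
        · rw [if_pos hχ]
        · rw [if_neg hχ]; positivity) (mem_univ χ)
  have h5 : (bad.card : ℝ) * (κ * (W.card : ℝ) ^ 2) ^ l
      ≤ 60 * Z * ∑ n ∈ range Z, ‖(cnt W l n : ℂ)‖ ^ 2 := by
    calc (bad.card : ℝ) * (κ * (W.card : ℝ) ^ 2) ^ l
        = ∑ _p ∈ bad, (κ * (W.card : ℝ) ^ 2) ^ l := by rw [sum_const, nsmul_eq_mul]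
      _ ≤ _ := sum_le_sum h4
      _ ≤ _ := h3
  have h6 : ∑ n ∈ range Z, ‖(cnt W l n : ℂ)‖ ^ 2 ≤ (D : ℝ) ^ l * (W.card : ℝ) ^ l := by
    have h7 : ∀ n ∈ range Z, ‖(cnt W l n : ℂ)‖ ^ 2 ≤ (D : ℝ) ^ l * (cnt W l n : ℝ) := by
      intro n _
      rw [Complex.norm_natCast, sq]
      apply mul_le_mul_of_nonneg_right _ (Nat.cast_nonneg _)
      exact_mod_cast cnt_le W l H D hW hD n
    refine (sum_le_sum h7).trans (le_of_eq ?_)
    rw [← mul_sum]
    congr 1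
    exact_mod_cast sum_cnt W l Z H hW hZ1
  have h8 : (bad.card : ℝ) * (κ * (W.card : ℝ) ^ 2) ^ l
      ≤ 60 * Z * ((D : ℝ) ^ l * (W.card : ℝ) ^ l) := h5.trans (by gcongr)
  have hZr : (Z : ℝ) = (H : ℝ) ^ l + 4 * (Q : ℝ) ^ 2 := by rw [hZ]; push_cast; ring
  rcases Nat.eq_zero_or_pos W.card with h0 | h0
  · rw [h0, Nat.cast_zero, mul_zero, zero_pow (by omega), mul_zero]
    positivity
  · have hw : (0 : ℝ) < (W.card : ℝ) ^ l := by positivity
    have h9 : ((bad.card : ℝ) * (κ * W.card) ^ l) * (W.card : ℝ) ^ l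
        ≤ (60 * Z * (D : ℝ) ^ l) * (W.card : ℝ) ^ l := by
      have e1 : ((bad.card : ℝ) * (κ * W.card) ^ l) * (W.card : ℝ) ^ l
          = (bad.card : ℝ) * (κ * (W.card : ℝ) ^ 2) ^ l := by
        rw [mul_assoc, ← mul_pow]
        congr 2
        ring
      rw [e1]
      linarith
    have h10 := le_of_mul_le_mul_right h9 hw
    rw [hZr] at h10
    exact h10

end Pool.Agent.Helper94.TS.spec_bad
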