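import Pool.Agent.Helper94.TS.Five

set_option autoImplicit false

namespace Pool.Agent.Helper94.TS

variable {K : Type*} [Field K] {B : Type*} [NonUnitalNonAssocRing B] [Module K B]
  [IsScalarTower K B B] [SMulCommClass K B B]

theorem an_add_left (x x' z : B) (l : List B) : an (x + x') z l = an x z l + an x' z l := by
  rw [an, an, an, ← opl_add, add_mul, mul_add]
  congr 1
  abel

theorem an_smul_left (c : K) (x z : B) (l : List B) : an (c • x) z l = c • an x z l := by
  rw [an, an, ← opl_smul, smul_mul_assoc, mul_smul_comm, smul_sub]

theorem an_lin [Infinite K] (h : Five B) (m : ℕ) (h0 : ∀ y z : B, an y z (List.replicate m y) = 0)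
    (y u z : B) :
    (m : K) • an y z (u :: List.replicate (m - 1) y) + an u z (List.replicate m y) = 0 := by
  obtain ⟨M1, h1, _, h11⟩ := (symMul_an (K := K) h y z m).expand y u m [] (by simp)
  obtain ⟨M2, h2, h20, _⟩ := (symMul_an (K := K) h u z m).expand y u m [] (by simp)
  have hPF := h1.add h2.tmul
  have hv := hPF.vanish (fun t => ?_) 1
  · simp only [one_ne_zero, if_false, Nat.sub_self, h11, h20, List.append_nil] at hv
    exact hv
  · have := h0 (y + t • u) z
    rw [an_add_left, an_smul_left] at this
    simpa using this

theorem an_van [CharZero K] (h : Five B) (m : ℕ)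
    (h0 : ∀ y z : B, an y z (List.replicate m y) = 0) (u z : B) (l : List B) (hl : l.length = m) :
    an u z l = 0 := by
  refine (symMul_an (K := K) h u z m).polar (fun y => ?_) l hl
  rcases m with _ | m
  · simpa using h0 u z
  · have e1 := an_lin (K := K) h (m + 1) h0 y u z
    have e2 := an_lin (K := K) h (m + 1) h0 y z u
    rw [Nat.add_sub_cancel] at e1 e2
    have c1 : an y z (u :: List.replicate m y) =
        an u z (List.replicate (m + 1) y) - an u y (z :: List.replicate m y) := by
      rw [an_cyc h y z u, List.replicate_succ]
    have c2 : an y u (z :: List.replicate m y) = - an u y (z :: List.replicate m y) := an_symm _ _ _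
    have c3 : an z u (List.replicate (m + 1) y) = - an u z (List.replicate (m + 1) y) :=
      an_symm _ _ _
    rw [c1] at e1
    rw [c2, c3] at e2
    generalize an u z (List.replicate (m + 1) y) = X at *
    generalize an u y (z :: List.replicate m y) = Y at *
    have e3 : ((m + 1 : ℕ) : K) • Y = - X := by
      rw [smul_neg] at e2
      have := eq_neg_of_add_eq_zero_left e2
      rw [neg_neg] at this
      rw [← this, neg_neg]
    rw [smul_sub, e3] at e1
    have e4 : (((m + 1 : ℕ) : K) + 2) • X = 0 := by
      rw [add_smul, two_smul]
      rw [← e1]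
      abel
    have hne : (((m + 1 : ℕ) : K) + 2) ≠ 0 := by
      have : (((m + 1 : ℕ) : K) + 2) = ((m + 3 : ℕ) : K) := by push_cast; ring
      rw [this]
      exact_mod_cast (by omega : m + 3 ≠ 0)
    exact (smul_eq_zero.1 e4).resolve_left hne

end Pool.Agent.Helper94.TS
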