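import Pool.Agent.Helper94.TS.PF

set_option autoImplicit false

namespace Pool.Agent.Helper94.TS

/-- The five identities. -/
structure Five (B : Type*) [NonUnitalNonAssocRing B] : Prop where
  h1 : ∀ x y z t : B, (x * y) * (z * t) = 0
  h2 : ∀ x y z : B, x * (y * z) + (y * z) * x = 0
  h3 : ∀ x y z t : B, ((x * y) * z) * t = ((x * y) * t) * z
  h4 : ∀ x y z : B, (x * y + y * x) * z = (x * z + z * x) * y
  h5 : ∀ x y z : B, (x * y - y * x) * z + (y * z - z * y) * x + (z * x - x * z) * y = 0

variable {K : Type*} [Field K] {B : Type*} [NonUnitalNonAssocRing B] [Module K B]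
  [IsScalarTower K B B] [SMulCommClass K B B]

/-- Right multiplication by the elements of a list, in order. -/
def opl (l : List B) (v : B) : B := l.foldl (fun v k => v * k) v

theorem opl_nil (v : B) : opl [] v = v := rfl
theorem opl_cons (a : B) (l : List B) (v : B) : opl (a :: l) v = opl l (v * a) := rfl
theorem opl_append (l : List B) (a v : B) : opl (l ++ [a]) v = opl l v * a := by
  simp [opl, List.foldl_append]

theorem opl_add (l : List B) (v w : B) : opl l (v + w) = opl l v + opl l w := by
  induction l generalizing v w with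
  | nil => rfl
  | cons a l ih => rw [opl_cons, opl_cons, opl_cons, add_mul, ih]

theorem opl_sub (l : List B) (v w : B) : opl l (v - w) = opl l v - opl l w := by
  induction l generalizing v w with
  | nil => rfl
  | cons a l ih => rw [opl_cons, opl_cons, opl_cons, sub_mul, ih]

theorem opl_zero (l : List B) : opl l 0 = 0 := by
  induction l with
  | nil => rfl
  | cons a l ih => rw [opl_cons, zero_mul, ih]

theorem opl_neg (l : List B) (v : B) : opl l (-v) = - opl l v := by
  rw [← zero_sub, opl_sub, opl_zero, zero_sub]

theorem opl_smul (l : List B) (c : K) (v : B) : opl l (c • v) = c • opl l v := by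
  induction l generalizing v with
  | nil => rfl
  | cons a l ih => rw [opl_cons, opl_cons, smul_mul_assoc, ih]

theorem opl_prod (l : List B) (x y : B) : ∃ u v : B, opl l (x * y) = u * v := by
  induction l generalizing x y with
  | nil => exact ⟨x, y, rfl⟩
  | cons a l ih => exact ih (x * y) a

theorem opl_perm (h : Five B) {l l' : List B} (hl : l.Perm l') (x y : B) :
    opl l (x * y) = opl l' (x * y) := by
  induction hl generalizing x y with
  | nil => rfl
  | cons a _ ih => rw [opl_cons, opl_cons]; exact ih _ _
  | swap a b l => rw [opl_cons, opl_cons, opl_cons, opl_cons, h.h3]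
  | trans _ _ ih1 ih2 => rw [ih1, ih2]

/-- The symmetric part. -/
def sy : List B → B
  | x :: y :: l => opl l (x * y + y * x)
  | _ => 0

theorem sy_cons (x y : B) (l : List B) : sy (x :: y :: l) = opl l (x * y + y * x) := rfl

theorem sy_perm' (h : Five B) (x : B) {l l' : List B} (hl : l.Perm l') :
    sy (x :: l) = sy (x :: l') := by
  induction hl with
  | nil => rfl
  | cons a hp _ =>
    rw [sy_cons, sy_cons, opl_add, opl_add, opl_perm h hp, opl_perm h hp]
  | swap a b l =>
    rw [sy_cons, sy_cons, opl_cons, opl_cons, h.h4]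
  | trans _ _ ih1 ih2 => rw [ih1, ih2]

theorem sy_perm (h : Five B) {l l' : List B} (hl : l.Perm l') : sy l = sy l' := by
  induction hl with
  | nil => rfl
  | cons a hp _ => exact sy_perm' h a hp
  | swap a b l => rw [sy_cons, sy_cons, add_comm]
  | trans _ _ ih1 ih2 => rw [ih1, ih2]

theorem symMul_sy (h : Five B) (n : ℕ) (hn : 2 ≤ n) : SymMul (K := K) n (sy : List B → B) where
  perm l l' _ hl := sy_perm h hl
  add x y l hl := by
    rcases l with _ | ⟨z, l⟩
    · simp at hl; omega
    · rw [sy_cons, sy_cons, sy_cons, ← opl_add, add_mul, mul_add]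
      congr 1
      abel
  smul c x l hl := by
    rcases l with _ | ⟨z, l⟩
    · simp at hl; omega
    · rw [sy_cons, sy_cons, ← opl_smul, smul_mul_assoc, mul_smul_comm, smul_add]

/-- The antisymmetric part. -/
def an (x y : B) (l : List B) : B := opl l (x * y - y * x)

theorem an_perm (h : Five B) (x y : B) {l l' : List B} (hl : l.Perm l') :
    an x y l = an x y l' := by
  rw [an, an, opl_sub, opl_sub, opl_perm h hl, opl_perm h hl]

theorem an_self (x : B) (l : List B) : an x x l = 0 := by
  rw [an, sub_self, opl_zero]

theorem an_symm (x y : B) (l : List B) : an x y l = - an y x l := by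
  rw [an, an, ← opl_neg, neg_sub]

theorem an_cyc (h : Five B) (x y z : B) (l : List B) :
    an x y (z :: l) = an z y (x :: l) - an z x (y :: l) := by
  have e := congrArg (opl l) (h.h5 x y z)
  rw [opl_add, opl_add, opl_zero] at e
  have h1 : an x y (z :: l) = opl l ((x * y - y * x) * z) := rfl
  have h2 : an z y (x :: l) = opl l ((z * y - y * z) * x) := rfl
  have h3 : an z x (y :: l) = opl l ((z * x - x * z) * y) := rfl
  have h2' : an z y (x :: l) = - opl l ((y * z - z * y) * x) := by
    rw [h2, ← opl_neg, ← neg_mul, neg_sub]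
  rw [h1, h2', h3]
  have := eq_neg_of_add_eq_zero_left e
  rw [eq_sub_iff_add_eq, eq_neg_iff_add_eq_zero]
  rw [← e]
  abel

theorem symMul_an (h : Five B) (u z : B) (n : ℕ) : SymMul (K := K) n (an u z) where
  perm l l' _ hl := an_perm h u z hl
  add x y l hl := by
    rw [an, an, an, opl_cons, opl_cons, opl_cons, mul_add, opl_add]
  smul c x l hl := by
    rw [an, an, opl_cons, opl_cons, mul_smul_comm, opl_smul]

end Pool.Agent.Helper94.TS
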