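import Pool.Agent.Helper94.TS.Specht

set_option autoImplicit false

universe u

namespace Pool.Agent.Helper94.TS

open Pool.Agent.Helper4.TSpace (NAlgebra value InVariety identities)
open FreeNonUnitalNonAssocAlgebra

variable {K : Type u} [Field K]

section

variable {A B : Type*} [NonUnitalNonAssocRing A] [Module K A] [NonUnitalNonAssocRing B]
  [Module K B]

theorem map_opl (φ : A →ₙₐ[K] B) (l : List A) (v : A) : φ (opl l v) = opl (l.map φ) (φ v) := by
  induction l generalizing v with
  | nil => rfl
  | cons a l ih => rw [opl_cons, List.map_cons, opl_cons, ih, map_mul]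

theorem map_sy (φ : A →ₙₐ[K] B) (l : List A) : φ (sy l) = sy (l.map φ) := by
  rcases l with _ | ⟨x, _ | ⟨y, l⟩⟩
  · exact map_zero φ
  · exact map_zero φ
  · rw [List.map_cons, List.map_cons, sy_cons, sy_cons, map_opl, map_add, map_mul, map_mul]

theorem map_an (φ : A →ₙₐ[K] B) (x y : A) (l : List A) :
    φ (an x y l) = an (φ x) (φ y) (l.map φ) := by
  rw [an, an, map_opl, map_sub, map_mul, map_mul]

omit [Module K B] in
theorem sy_long {n : ℕ} (hn : 2 ≤ n) (h : ∀ l : List B, l.length = n → sy l = 0) (l : List B)
    (hl : n ≤ l.length) : sy l = 0 := by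
  have e : l = l.take n ++ l.drop n := (List.take_append_drop n l).symm
  have hlen : (l.take n).length = n := by simp; omega
  have h1 := h (l.take n) hlen
  rcases hl' : l.take n with _ | ⟨x, _ | ⟨y, l'⟩⟩
  · rw [hl', List.length_nil] at hlen; omega
  · rw [hl', List.length_cons, List.length_nil] at hlen; omega
  · rw [hl', sy_cons] at h1
    rw [e, hl', List.cons_append, List.cons_append, sy_cons, opl, List.foldl_append]
    change opl (l.drop n) (opl l' (x * y + y * x)) = 0
    rw [h1, opl_zero]

omit [Module K B] in
theorem an_long {m : ℕ} {x y : B} (h : ∀ l : List B, l.length = m → an x y l = 0) (l : List B)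
    (hl : m ≤ l.length) : an x y l = 0 := by
  have e : l = l.take m ++ l.drop m := (List.take_append_drop m l).symm
  have h1 := h (l.take m) (by simp; omega)
  rw [an] at h1 ⊢
  rw [e, opl, List.foldl_append]
  change opl (l.drop m) (opl (l.take m) (x * y - y * x)) = 0
  rw [h1, opl_zero]

end

/-- The symmetric identity of degree `n`. -/
noncomputable def sP (K : Type u) [Field K] (n : ℕ) : Pool.Agent.Helper4.TSpace.Poly K :=
  sy ((List.range n).map (of K))

/-- The antisymmetric identity of degree `n`. -/
noncomputable def sQ (K : Type u) [Field K] (n : ℕ) : Pool.Agent.Helper4.TSpace.Poly K :=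
  an (of K 0) (of K 1) ((List.range (n - 2)).map (fun i => of K (i + 2)))

theorem map_range_getD {B : Type*} (z : B) (l : List B) :
    (List.range l.length).map (fun i => l.getD i z) = l := by
  apply List.ext_getElem
  · simp
  · intro i h1 h2
    simp [List.getD_eq_getElem?_getD, List.getElem?_eq_getElem h2]

theorem holdsP (B : NAlgebra K) (n : ℕ) :
    InVariety {sP K n} B ↔ ∀ l : List B.carrier, l.length = n → sy l = 0 := by
  constructor
  · intro h l hl
    have h1 := h _ rfl (fun i => l.getD i 0)
    have h2 : value B (fun i => l.getD i 0) (sP K n) =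
        sy (((List.range n).map (of K)).map (lift K (fun i => l.getD i 0))) := map_sy _ _
    rw [h2, List.map_map] at h1
    rw [← h1]
    congr 1
    rw [← hl]
    conv_lhs => rw [← map_range_getD 0 l]
    apply List.map_congr_left
    intro i _
    exact (value_of B (fun i => l.getD i 0) i).symm
  · intro h f hf b
    rw [Set.mem_singleton_iff] at hf
    subst hf
    have h2 : value B b (sP K n) = sy (((List.range n).map (of K)).map (lift K b)) := map_sy _ _
    rw [h2]
    apply h
    simp

theorem holdsQ (B : NAlgebra K) (n : ℕ) :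
    InVariety {sQ K n} B ↔
      ∀ (x y : B.carrier) (l : List B.carrier), l.length = n - 2 → an x y l = 0 := by
  constructor
  · intro h x y l hl
    have h1 := h _ rfl (fun i => (x :: y :: l).getD i 0)
    have h2 : value B (fun i => (x :: y :: l).getD i 0) (sQ K n) =
        an _ _ (((List.range (n - 2)).map (fun i => of K (i + 2))).map
          (lift K (fun i => (x :: y :: l).getD i 0))) := map_an _ _ _ _
    rw [h2, List.map_map] at h1
    have e0 : lift K (fun i => (x :: y :: l).getD i 0) (of K 0) = x := value_of B _ 0
    have e1 : lift K (fun i => (x :: y :: l).getD i 0) (of K 1) = y := value_of B _ 1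
    rw [e0, e1] at h1
    rw [← h1]
    congr 1
    rw [← hl]
    conv_lhs => rw [← map_range_getD 0 l]
    apply List.map_congr_left
    intro i _
    exact (value_of B (fun i => (x :: y :: l).getD i 0) (i + 2)).symm
  · intro h f hf b
    rw [Set.mem_singleton_iff] at hf
    subst hf
    have h2 : value B b (sQ K n) =
        an _ _ (((List.range (n - 2)).map (fun i => of K (i + 2))).map (lift K b)) :=
      map_an _ _ _ _
    rw [h2]
    apply h
    simp

/-- linear part of the data -/
noncomputable def LD : Dat K → (ℕ →₀ K)
  | .inl i => Finsupp.single i 1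
  | .inr _ => 0

/-- linear part of a polynomial -/
noncomputable def LL (f : Pool.Agent.Helper4.TSpace.Poly K) : ℕ →₀ K := ws f (fun w => LD (nf w))

theorem hp_one (B : NAlgebra K) (b : ℕ → B.carrier) (f : Pool.Agent.Helper4.TSpace.Poly K) :
    hp B b f 1 = Finsupp.linearCombination K b (LL f) := by
  rw [LL, ws_map, hp]
  congr 1
  funext w
  rcases nf (K := K) w with i | ⟨e, i, j, l⟩
  · simp [dg, Th, LD]
  · have : ¬ (1 = dg (Sum.inr (e, i, j, l) : Dat K)) := by simp [dg]
    rw [if_neg this]
    simp [LD]

theorem hp_nought (B : NAlgebra K) (b : ℕ → B.carrier) (f : Pool.Agent.Helper4.TSpace.Poly K) :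
    hp B b f 0 = 0 := by
  rw [hp]
  apply ws_zero
  intro w
  rw [if_neg]
  rcases nf (K := K) w with i | ⟨e, i, j, l⟩ <;> simp [dg]

theorem triv_of_LL (B : NAlgebra K) (f : Pool.Agent.Helper4.TSpace.Poly K) (hL : LL f ≠ 0)
    (h0 : ∀ b : ℕ → B.carrier, hp B b f 1 = 0) (y : B.carrier) : y = 0 := by
  obtain ⟨i, hi⟩ := Finsupp.ne_iff.1 hL
  rw [Finsupp.zero_apply] at hi
  have h := h0 (fun j => if j = i then y else 0)
  rw [hp_one, Finsupp.linearCombination_apply, Finsupp.sum] at h
  have e : ∑ a ∈ (LL f).support, (LL f) a • (if a = i then y else 0) = (LL f) i • y := by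
    rw [Finset.sum_eq_single i]
    · simp
    · intro j _ hj
      rw [if_neg hj, smul_zero]
    · intro hi'
      rw [Finsupp.notMem_support_iff.1 hi', zero_smul]
  rw [e] at h
  exact (smul_eq_zero.1 h).resolve_left hi

theorem isSpecht [CharZero K] : IsSpecht (identities (Pool.Agent.Helper4.TSpace.BA K)) := by
  classical
  intro E' hE'
  set DP : Set ℕ := {n | 2 ≤ n ∧ ∃ f ∈ E', PP f n ≠ 0} with hDP
  set DQ : Set ℕ := {n | 2 ≤ n ∧ ∃ f ∈ E', QQ f n ≠ 0} with hDQ
  set S : Set (Pool.Agent.Helper4.TSpace.Poly K) := Set.range (five (K := K)) ∪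
    ((if ∃ f ∈ E', LL f ≠ 0 then {of K 0} else ∅) ∪
      ((if DP.Nonempty then {sP K (sInf DP)} else ∅) ∪
        (if DQ.Nonempty then {sQ K (sInf DQ)} else ∅))) with hS
  have hun : ∀ (B : NAlgebra K) (S1 S2 : Set (Pool.Agent.Helper4.TSpace.Poly K)),
      InVariety (S1 ∪ S2) B ↔ InVariety S1 B ∧ InVariety S2 B := by
    intro B S1 S2
    constructor
    · intro h
      exact ⟨fun f hf => h f (Or.inl hf), fun f hf => h f (Or.inr hf)⟩
    · rintro ⟨h1, h2⟩ f (hf | hf)
      · exact h1 f hf
      · exact h2 f hf
  have hemp : ∀ B : NAlgebra K, InVariety ∅ B := fun B f hf => absurd hf (Set.notMem_empty f)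
  refine ⟨S, ?_, fun B => ?_⟩
  · apply Set.Finite.union (Set.finite_range _)
    apply Set.Finite.union
    · split_ifs
      · exact Set.finite_singleton _
      · exact Set.finite_empty
    apply Set.Finite.union
    · split_ifs
      · exact Set.finite_singleton _
      · exact Set.finite_empty
    · split_ifs
      · exact Set.finite_singleton _
      · exact Set.finite_empty
  rw [hS, hun, hun, hun]
  constructor
  · rintro ⟨hf5, hL, hP, hQ⟩
    have h5 : Five B.carrier := (five_iff B).1 hf5
    intro f hf b
    obtain ⟨N, hN⟩ := value_eq_sum B h5 f b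
    rw [hN]
    apply Finset.sum_eq_zero
    intro n _
    rcases (by omega : n = 0 ∨ n = 1 ∨ 2 ≤ n) with rfl | rfl | hn
    · exact hp_nought B b f
    · rw [hp_one]
      by_cases hl : LL f = 0
      · rw [hl, map_zero]
      · rw [if_pos ⟨f, hf, hl⟩] at hL
        have hz : ∀ y : B.carrier, y = 0 := fun y => by
          have := hL (of K 0) rfl (fun _ => y)
          rw [value_of] at this
          exact this
        exact hz _
    · have h2 := two_hp B h5 b f n hn
      have e1 : lin (fun l => sy (l.map b)) (PP f n) = 0 := by
        by_cases hp0 : PP f n = 0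
        · rw [hp0, map_zero]
        · have hmem : n ∈ DP := ⟨hn, f, hf, hp0⟩
          have hne : DP.Nonempty := ⟨n, hmem⟩
          rw [if_pos hne, holdsP] at hP
          have hle : sInf DP ≤ n := Nat.sInf_le hmem
          have h2' : 2 ≤ sInf DP := (Nat.sInf_mem hne).1
          rw [linP_eq B h5]
          apply ws_zero
          intro w
          rcases nf (K := K) w with i | ⟨e, i, j, l⟩
          · rfl
          · simp only [Sy]
            split_ifs with hl
            · rw [sy_long h2' hP, smul_zero]
              simp only [List.length_map, List.length_cons]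
              omega
            · rfl
      have e2 : linA b (QQ f n) = 0 := by
        by_cases hq0 : QQ f n = 0
        · rw [hq0, map_zero]
        · have hmem : n ∈ DQ := ⟨hn, f, hf, hq0⟩
          have hne : DQ.Nonempty := ⟨n, hmem⟩
          rw [if_pos hne, holdsQ] at hQ
          have hle : sInf DQ ≤ n := Nat.sInf_le hmem
          rw [linQ_eq B h5]
          apply ws_zero
          intro w
          rcases nf (K := K) w with i | ⟨e, i, j, l⟩
          · rfl
          · simp only [An]
            split_ifs with hl
            · rw [an_long (hQ _ _), smul_zero]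
              simp only [List.length_map]
              omega
            · rfl
      rw [e1, e2, add_zero] at h2
      exact (smul_eq_zero.1 h2).resolve_left two_ne_zero
  · intro hB
    have hid : InVariety (identities (Pool.Agent.Helper4.TSpace.BA K)) B := hE' B hB
    have hf5 : InVariety (Set.range (five (K := K))) B :=
      fun f hf b => hid f (range_five_subset hf) b
    have h5 : Five B.carrier := (five_iff B).1 hf5
    have hhp : ∀ f ∈ E', ∀ (b : ℕ → B.carrier) (n : ℕ), hp B b f n = 0 :=
      fun f hf b n => hp_zero B h5 f (hB f hf) b n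
    have hsy : ∀ f ∈ E', ∀ n : ℕ, 2 ≤ n → PP f n ≠ 0 →
        ∀ l : List B.carrier, l.length = n → sy l = 0 := fun f hf n hn hp0 =>
      sy_zero_of_PP B h5 f n hn (fun b => hhp f hf b n) hp0
    refine ⟨hf5, ?_, ?_, ?_⟩
    · split_ifs with hc
      · obtain ⟨f, hf, hl⟩ := hc
        intro g hg b
        exact triv_of_LL B f hl (fun b => hhp f hf b 1) _
      · exact hemp B
    · split_ifs with hc
      · rw [holdsP]
        obtain ⟨hn, f, hf, hp0⟩ := Nat.sInf_mem hc
        exact hsy f hf _ hn hp0
      · exact hemp B
    · split_ifs with hc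
      · rw [holdsQ]
        obtain ⟨hn, f, hf, hq0⟩ := Nat.sInf_mem hc
        intro x y l hl
        refine an_zero_of_QQ B h5 f _ (fun b => ?_) hq0 x y l hl
        have h2 := two_hp B h5 b f _ hn
        rw [hhp f hf, smul_zero] at h2
        have e1 : lin (fun l => sy (l.map b)) (PP f (sInf DQ)) = 0 := by
          by_cases hp0 : PP f (sInf DQ) = 0
          · rw [hp0, map_zero]
          · rw [linP_eq B h5]
            apply ws_zero
            intro w
            rcases nf (K := K) w with i | ⟨e, i, j, l⟩
            · rfl
            · simp only [Sy]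
              split_ifs with hl
              · rw [hsy f hf _ hn hp0 _ (by simpa using hl), smul_zero]
              · rfl
        rw [e1, zero_add] at h2
        exact h2.symm
      · exact hemp B

end Pool.Agent.Helper94.TS
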