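import Pool.Agent.Helper94.TS.AnV
import Pool.Agent.Helper4.TSpaceDefs

set_option autoImplicit false

universe u

namespace Pool.Agent.Helper94.TS

open Pool.Agent.Helper4.TSpace (NAlgebra value InVariety identities)

variable {K : Type u} [Field K]

/-- Normal form data of a word. -/
abbrev Dat (K : Type u) : Type u := ℕ ⊕ (K × ℕ × ℕ × List ℕ)

/-- Product of data. -/
def dmul : Dat K → Dat K → Dat K
  | .inl i, .inl j => .inr (1, i, j, [])
  | .inr (e, i, j, l), .inl k => .inr (e, i, j, l ++ [k])
  | .inl k, .inr (e, i, j, l) => .inr (-e, i, j, l ++ [k])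
  | .inr _, .inr _ => .inr (0, 0, 0, [])

/-- Normal form data of a word. -/
def nf : FreeMagma ℕ → Dat K
  | .of i => .inl i
  | .mul x y => dmul (nf x) (nf y)

/-- Degree of the data. -/
def dg : Dat K → ℕ
  | .inl _ => 1
  | .inr (_, _, _, l) => l.length + 2

section

variable {B : Type*} [NonUnitalNonAssocRing B] [Module K B]
  [IsScalarTower K B B] [SMulCommClass K B B]

/-- Value of the data. -/
def Th (b : ℕ → B) : Dat K → B
  | .inl i => b i
  | .inr (e, i, j, l) => e • opl (l.map b) (b i * b j)

theorem Th_dmul (h : Five B) (b : ℕ → B) (d d' : Dat K) : Th b (dmul d d') = Th b d * Th b d' := by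
  rcases d with i | ⟨e, i, j, l⟩ <;> rcases d' with i' | ⟨e', i', j', l'⟩
  · simp [dmul, Th, opl]
  · simp only [dmul, Th, List.map_append, List.map_cons, List.map_nil, opl_append]
    rw [mul_smul_comm, neg_smul, ← smul_neg]
    congr 1
    obtain ⟨u, v, huv⟩ := opl_prod (l'.map b) (b i') (b j')
    rw [huv]
    have := h.h2 (b i) u v
    rw [add_eq_zero_iff_neg_eq] at this
    rw [← this, neg_neg] 
  · simp only [dmul, Th, List.map_append, List.map_cons, List.map_nil, opl_append]
    rw [smul_mul_assoc]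
  · simp only [dmul, Th, zero_smul]
    obtain ⟨u, v, huv⟩ := opl_prod (l'.map b) (b i') (b j')
    obtain ⟨u', v', huv'⟩ := opl_prod (l.map b) (b i) (b j)
    rw [huv, huv', smul_mul_assoc, mul_smul_comm, h.h1, smul_zero, smul_zero]

theorem lift_nf (h : Five B) (b : ℕ → B) (w : FreeMagma ℕ) :
    FreeMagma.lift b w = Th (K := K) b (nf w) := by
  induction w using FreeMagma.rec with
  | of i => rfl
  | mul x y ihx ihy =>
    have e : FreeMagma.lift b (x * y) = FreeMagma.lift b x * FreeMagma.lift b y := map_mul _ _ _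
    refine e.trans ?_
    rw [ihx, ihy, ← Th_dmul h]
    rfl

theorem opl_map_smul (t : K) (b : ℕ → B) (l : List ℕ) (v : B) :
    opl (l.map (fun i => t • b i)) v = t ^ l.length • opl (l.map b) v := by
  induction l generalizing v with
  | nil => simp [opl]
  | cons a l ih =>
    rw [List.map_cons, List.map_cons, opl_cons, opl_cons, ih, mul_smul_comm, opl_smul, smul_smul,
      List.length_cons, pow_succ]

theorem Th_smul (t : K) (b : ℕ → B) (d : Dat K) :
    Th (fun i => t • b i) d = t ^ dg d • Th b d := by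
  rcases d with i | ⟨e, i, j, l⟩
  · simp [Th, dg]
  · simp only [Th, dg]
    rw [opl_map_smul, smul_mul_assoc, mul_smul_comm, opl_smul, opl_smul, smul_smul, smul_smul,
      smul_smul, smul_smul]
    congr 1
    ring

end

section ws

variable {W W' : Type*} [AddCommGroup W] [Module K W] [AddCommGroup W'] [Module K W']

/-- weighted sum over the words of a polynomial -/
noncomputable def ws (f : Pool.Agent.Helper4.TSpace.Poly K) (v : FreeMagma ℕ → W) : W :=
  ∑ w ∈ f.coeff.support, f.coeff w • v w

theorem ws_map (f : Pool.Agent.Helper4.TSpace.Poly K) (v : FreeMagma ℕ → W) (φ : W →ₗ[K] W') :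
    φ (ws f v) = ws f (fun w => φ (v w)) := by
  simp [ws, map_sum]

theorem ws_add (f : Pool.Agent.Helper4.TSpace.Poly K) (v v' : FreeMagma ℕ → W) :
    ws f (fun w => v w + v' w) = ws f v + ws f v' := by
  simp [ws, smul_add, Finset.sum_add_distrib]

theorem ws_smul (f : Pool.Agent.Helper4.TSpace.Poly K) (c : K) (v : FreeMagma ℕ → W) :
    ws f (fun w => c • v w) = c • ws f v := by
  simp only [ws, Finset.smul_sum]
  exact Finset.sum_congr rfl fun w _ => smul_comm _ _ _

theorem ws_zero (f : Pool.Agent.Helper4.TSpace.Poly K) (v : FreeMagma ℕ → W) (hv : ∀ w, v w = 0) : ws f v = 0 := by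
  simp [ws, hv]

theorem PF_ws (f : Pool.Agent.Helper4.TSpace.Poly K) {g : FreeMagma ℕ → K → W} {m : FreeMagma ℕ → ℕ → W}
    (h : ∀ w, PF (g w) (m w)) : PF (fun t => ws f (fun w => g w t)) (fun k => ws f (fun w => m w k)) :=
  PF.sum f.coeff.support (g := fun w t => f.coeff w • g w t) (m := fun w k => f.coeff w • m w k)
    (fun w _ => (h w).smul _)

end ws

theorem value_eq (B : NAlgebra K) (b : ℕ → B.carrier) (f : Pool.Agent.Helper4.TSpace.Poly K) :
    value B b f = ws f (fun w => FreeMagma.lift b w) := by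
  rfl

/-- homogeneous part of the value -/
noncomputable def hp (B : NAlgebra K) (b : ℕ → B.carrier) (f : Pool.Agent.Helper4.TSpace.Poly K) (n : ℕ) : B.carrier :=
  ws f (fun w => if n = dg (nf (K := K) w) then Th b (nf (K := K) w) else 0)

theorem hp_zero [Infinite K] (B : NAlgebra K) (h : Five B.carrier) (f : Pool.Agent.Helper4.TSpace.Poly K)
    (hf : ∀ b : ℕ → B.carrier, value B b f = 0) (b : ℕ → B.carrier) (n : ℕ) : hp B b f n = 0 := by
  have h1 := PF_ws f (fun w => PF.pow (K := K) (dg (nf (K := K) w)) (Th b (nf (K := K) w)))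
  refine h1.vanish (fun t => ?_) n
  have h2 := hf (fun i => t • b i)
  rw [value_eq] at h2
  rw [← h2]
  congr 1
  funext w
  rw [lift_nf (K := K) h, Th_smul]

theorem value_eq_sum (B : NAlgebra K) (h : Five B.carrier) (f : Pool.Agent.Helper4.TSpace.Poly K) (b : ℕ → B.carrier) :
    ∃ N : ℕ, value B b f = ∑ n ∈ Finset.range N, hp B b f n := by
  refine ⟨f.coeff.support.sup (fun w => dg (nf (K := K) w)) + 1, ?_⟩
  rw [value_eq]
  simp only [hp, ws]
  rw [Finset.sum_comm]
  refine Finset.sum_congr rfl fun w hw => ?_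
  rw [← Finset.smul_sum, Finset.sum_ite_eq', if_pos, lift_nf (K := K) h]
  rw [Finset.mem_range, Nat.lt_succ_iff]
  exact Finset.le_sup (f := fun w => dg (nf (K := K) w)) hw

end Pool.Agent.Helper94.TS
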