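import Mathlib

set_option autoImplicit false

namespace Pool.Agent.Helper94.TS

variable {K : Type*} [Field K] {W W' : Type*} [AddCommGroup W] [Module K W] [AddCommGroup W']
  [Module K W']

/-- Polynomial functions of one variable with values in `W`, with their coefficients. -/
inductive PF : (K → W) → (ℕ → W) → Prop
  | const (v : W) : PF (fun _ => v) (fun n => if n = 0 then v else 0)
  | add {g h : K → W} {m n : ℕ → W} : PF g m → PF h n → PF (fun t => g t + h t) (fun k => m k + n k)
  | tmul {g : K → W} {m : ℕ → W} : PF g m → PF (fun t => t • g t)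
      (fun k => if k = 0 then 0 else m (k - 1))

theorem PF.congr {g g' : K → W} {m m' : ℕ → W} (h : PF g m) (hg : ∀ t, g t = g' t)
    (hm : ∀ k, m k = m' k) : PF g' m' := by
  have h1 : g = g' := funext hg
  have h2 : m = m' := funext hm
  rw [← h1, ← h2]; exact h

theorem PF.map {g : K → W} {m : ℕ → W} (h : PF g m) (A : W →ₗ[K] W') :
    PF (fun t => A (g t)) (fun k => A (m k)) := by
  induction h with
  | const v => 
    refine (PF.const (A v)).congr (fun _ => rfl) (fun k => ?_)
    by_cases hk : k = 0 <;> simp [hk]
  | add _ _ ih1 ih2 => exact (ih1.add ih2).congr (fun t => by simp) (fun k => by simp)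
  | tmul _ ih =>
    refine ih.tmul.congr (fun t => by simp) (fun k => ?_)
    by_cases hk : k = 0 <;> simp [hk]

theorem PF.zero : PF (fun _ : K => (0 : W)) (fun _ => 0) :=
  (PF.const (K := K) (0 : W)).congr (fun _ => rfl) (fun k => by split_ifs <;> rfl)

theorem PF.smul {g : K → W} {m : ℕ → W} (h : PF g m) (c : K) :
    PF (fun t => c • g t) (fun k => c • m k) :=
  (h.map (LinearMap.lsmul K W c)).congr (fun _ => rfl) (fun _ => rfl)

theorem PF.sum {ι : Type*} (s : Finset ι) {g : ι → K → W} {m : ι → ℕ → W}
    (h : ∀ i ∈ s, PF (g i) (m i)) : PF (fun t => ∑ i ∈ s, g i t) (fun k => ∑ i ∈ s, m i k) := by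
  classical
  induction s using Finset.induction_on with
  | empty => simpa using (PF.zero (K := K) (W := W))
  | insert a s ha ih =>
    refine ((h a (Finset.mem_insert_self a s)).add
      (ih fun i hi => h i (Finset.mem_insert_of_mem hi))).congr (fun t => ?_) (fun k => ?_)
    · rw [Finset.sum_insert ha]
    · rw [Finset.sum_insert ha]

theorem PF.pow (n : ℕ) (v : W) :
    PF (fun t : K => t ^ n • v) (fun k => if k = n then v else 0) := by
  induction n with
  | zero => exact (PF.const v).congr (fun t => by simp) (fun _ => rfl)
  | succ n ih =>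
    refine ih.tmul.congr (fun t => ?_) (fun k => ?_)
    · rw [smul_smul, pow_succ']
    · rcases k with _ | k
      · simp
      · simp

theorem PF.exists_poly {g : K → W} {m : ℕ → W} (h : PF g m) (φ : W →ₗ[K] K) :
    ∃ p : Polynomial K, (∀ t, φ (g t) = p.eval t) ∧ ∀ k, φ (m k) = p.coeff k := by
  induction h with
  | const v =>
    refine ⟨Polynomial.C (φ v), fun t => by simp, fun k => ?_⟩
    rw [Polynomial.coeff_C]
    by_cases hk : k = 0 <;> simp [hk]
  | add _ _ ih1 ih2 =>
    obtain ⟨p, hp1, hp2⟩ := ih1
    obtain ⟨q, hq1, hq2⟩ := ih2
    exact ⟨p + q, fun t => by simp [hp1, hq1], fun k => by simp [hp2, hq2]⟩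
  | tmul _ ih =>
    obtain ⟨p, hp1, hp2⟩ := ih
    refine ⟨Polynomial.X * p, fun t => by simp [hp1], fun k => ?_⟩
    rcases k with _ | k
    · simp
    · simp [hp2, Polynomial.coeff_X_mul]

theorem PF.vanish [Infinite K] {g : K → W} {m : ℕ → W} (h : PF g m) (h0 : ∀ t, g t = 0) (k : ℕ) :
    m k = 0 := by
  rw [← Module.forall_dual_apply_eq_zero_iff K]
  intro φ
  obtain ⟨p, hp1, hp2⟩ := h.exists_poly φ
  have hp : p = 0 := by
    apply Polynomial.funext
    intro t
    rw [← hp1, h0, map_zero, Polynomial.eval_zero]
  rw [hp2, hp, Polynomial.coeff_zero]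

/-- A symmetric function of `n` vectors, additive and homogeneous in the first one. -/
structure SymMul (n : ℕ) (s : List W → W') : Prop where
  perm : ∀ l l' : List W, l.length = n → l.Perm l' → s l = s l'
  add : ∀ (x y : W) (l : List W), l.length + 1 = n → s ((x + y) :: l) = s (x :: l) + s (y :: l)
  smul : ∀ (c : K) (x : W) (l : List W), l.length + 1 = n → s ((c • x) :: l) = c • s (x :: l)

theorem SymMul.expand {n : ℕ} {s : List W → W'} (h : SymMul (K := K) n s) (y u : W) (m : ℕ) :
    ∀ l : List W, m + l.length = n → ∃ M : ℕ → W',
      PF (fun t : K => s (List.replicate m (y + t • u) ++ l)) M ∧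
      M 0 = s (List.replicate m y ++ l) ∧
      M 1 = (m : K) • s (u :: (List.replicate (m - 1) y ++ l)) := by
  induction m with
  | zero =>
    intro l hl
    refine ⟨_, (PF.const (s l)).congr (fun t => by simp) (fun _ => rfl), by simp, by simp⟩
  | succ m ih =>
    intro l hl
    obtain ⟨M1, h1, h10, h11⟩ := ih (y :: l) (by simp; omega)
    obtain ⟨M2, h2, h20, h21⟩ := ih (u :: l) (by simp; omega)
    have key : ∀ (v : W) (z : W), s (v :: (List.replicate m z ++ l)) =
        s (List.replicate m z ++ v :: l) := by
      intro v z
      apply h.perm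
      · simp; omega
      · exact List.perm_middle.symm
    refine ⟨_, (h1.add h2.tmul).congr (fun t => ?_) (fun k => rfl), ?_, ?_⟩
    · rw [List.replicate_succ, List.cons_append, h.add _ _ _ (by simp; omega),
        h.smul _ _ _ (by simp; omega), key, key]
    · simp only [if_true, add_zero]
      rw [h10, List.replicate_succ, List.cons_append, key]
    · simp only [one_ne_zero, if_false, Nat.sub_self]
      rw [h11, h20]
      have e1 : s (u :: (List.replicate m y ++ l)) = s (List.replicate m y ++ u :: l) := key u y
      rw [Nat.add_sub_cancel, e1]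
      rcases m with _ | m
      · simp
      · have e2 : s (u :: (List.replicate (m + 1 - 1) y ++ y :: l)) =
            s (List.replicate (m + 1) y ++ u :: l) := by
          apply h.perm
          · simp; omega
          · rw [Nat.add_sub_cancel, List.replicate_succ, List.cons_append]
            calc (u :: (List.replicate m y ++ y :: l)).Perm (u :: (y :: (List.replicate m y ++ l))) :=
                  List.Perm.cons _ List.perm_middle
              _ |>.Perm (y :: u :: (List.replicate m y ++ l)) := List.Perm.swap _ _ _
              _ |>.Perm (y :: (List.replicate m y ++ u :: l)) :=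
                  List.Perm.cons _ List.perm_middle.symm
        rw [e2]
        push_cast
        rw [add_smul ((m : K) + 1) 1, one_smul]

/-- Polarization: a symmetric multilinear function vanishing on the diagonal is zero. -/
theorem SymMul.polar [CharZero K] {n : ℕ} {s : List W → W'} (h : SymMul (K := K) n s)
    (h0 : ∀ y : W, s (List.replicate n y) = 0) (l : List W) (hl : l.length = n) : s l = 0 := by
  have main : ∀ j ≤ n, ∀ (y : W) (l : List W), l.length = j →
      s (List.replicate (n - j) y ++ l) = 0 := by
    intro j
    induction j with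
    | zero =>
      intro _ y l hl
      have : l = [] := List.length_eq_zero_iff.1 hl
      subst this
      simpa using h0 y
    | succ j ih =>
      intro hj y l hl
      rcases l with _ | ⟨u, l⟩
      · simp at hl
      · have hl' : l.length = j := by simpa using hl
        obtain ⟨M, hM, _, hM1⟩ := h.expand y u (n - j) l (by omega)
        have hv := hM.vanish (fun t => ih (by omega) (y + t • u) l hl') 1
        rw [hM1] at hv
        have hne : ((n - j : ℕ) : K) ≠ 0 := by
          have : n - j ≠ 0 := by omega
          exact_mod_cast this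
        have := (smul_eq_zero.1 hv).resolve_left hne
        rw [← this]
        apply h.perm
        · simp; omega
        · have e : n - j - 1 = n - (j + 1) := by omega
          rw [e]
          exact List.perm_middle
  have := main n le_rfl 0 l hl
  simpa using this

end Pool.Agent.Helper94.TS
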