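import Pool.Agent.Helper94.TS.NF

set_option autoImplicit false

universe u

namespace Pool.Agent.Helper94.TS

open Pool.Agent.Helper4.TSpace (NAlgebra value InVariety identities)

variable {K : Type u} [Field K]

/-- The monomial of a list of variables. -/
noncomputable def mon (l : List ℕ) : MvPolynomial ℕ K :=
  MvPolynomial.monomial (Multiset.toFinsupp (l : Multiset ℕ)) 1

theorem mon_nil : (mon [] : MvPolynomial ℕ K) = 1 := by
  simp [mon]

theorem mon_cons (a : ℕ) (l : List ℕ) :
    (mon (a :: l) : MvPolynomial ℕ K) = MvPolynomial.X a * mon l := by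
  rw [mon, mon, MvPolynomial.X, MvPolynomial.monomial_mul, one_mul, ← Multiset.cons_coe,
    ← Multiset.singleton_add, Multiset.toFinsupp_add, Multiset.toFinsupp_singleton]

theorem eval_mon (c : ℕ → K) (l : List ℕ) : MvPolynomial.eval c (mon l) = (l.map c).prod := by
  induction l with
  | nil => simp [mon_nil]
  | cons a l ih => rw [mon_cons, map_mul, MvPolynomial.eval_X, ih, List.map_cons, List.prod_cons]

variable {B : Type*} [NonUnitalNonAssocRing B] [Module K B]
  [IsScalarTower K B B] [SMulCommClass K B B]

/-- linear extension of a function of lists to polynomials -/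
noncomputable def lin (s : List ℕ → B) : MvPolynomial ℕ K →ₗ[K] B :=
  (MvPolynomial.basisMonomials ℕ K).constr K (fun μ => s (Finsupp.toMultiset μ).toList)

theorem lin_mon (s : List ℕ → B) (hs : ∀ l l' : List ℕ, l.Perm l' → s l = s l') (l : List ℕ) :
    lin s (mon l : MvPolynomial ℕ K) = s l := by
  have e : (mon l : MvPolynomial ℕ K) =
      MvPolynomial.basisMonomials ℕ K (Multiset.toFinsupp (l : Multiset ℕ)) := by
    rw [MvPolynomial.coe_basisMonomials, mon]
  rw [lin, e, Module.Basis.constr_basis, Multiset.toFinsupp_toMultiset]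
  apply hs
  rw [← Multiset.coe_eq_coe, Multiset.coe_toList]

/-- symmetric part of the value of the data -/
def Sy (b : ℕ → B) (n : ℕ) : Dat K → B
  | .inl _ => 0
  | .inr (e, i, j, l) => if l.length + 2 = n then e • sy ((i :: j :: l).map b) else 0

/-- antisymmetric part of the value of the data -/
def An (b : ℕ → B) (n : ℕ) : Dat K → B
  | .inl _ => 0
  | .inr (e, i, j, l) => if l.length + 2 = n then e • an (b i) (b j) (l.map b) else 0

theorem two_Th (b : ℕ → B) (n : ℕ) (hn : 2 ≤ n) (d : Dat K) :
    (2 : K) • (if n = dg d then Th b d else 0) = Sy b n d + An b n d := by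
  rcases d with i | ⟨e, i, j, l⟩
  · simp only [dg, Sy, An]
    rw [if_neg (by omega)]
    simp
  · simp only [dg, Sy, An, Th]
    by_cases h : l.length + 2 = n
    · rw [if_pos h, if_pos h, if_pos h.symm]
      rw [List.map_cons, List.map_cons, sy_cons, an, smul_comm, ← smul_add, ← opl_add, ← opl_smul]
      congr 2
      rw [two_smul]
      abel
    · rw [if_neg h, if_neg h, if_neg (fun h' => h h'.symm)]
      simp

/-- symmetric polynomial of the data -/
noncomputable def Pd (n : ℕ) : Dat K → MvPolynomial ℕ K
  | .inl _ => 0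
  | .inr (e, i, j, l) => if l.length + 2 = n then e • mon (i :: j :: l) else 0

/-- antisymmetric polynomials of the data -/
noncomputable def Qd (n : ℕ) : Dat K → (ℕ →₀ MvPolynomial ℕ K)
  | .inl _ => 0
  | .inr (e, i, j, l) => if l.length + 2 = n then
      e • (Finsupp.single j (mon (i :: l)) - Finsupp.single i (mon (j :: l))) else 0

theorem lin_Pd (h : Five B) (b : ℕ → B) (n : ℕ) (d : Dat K) :
    lin (fun l => sy (l.map b)) (Pd n d) = Sy b n d := by
  rcases d with i | ⟨e, i, j, l⟩
  · simp [Pd, Sy]
  · simp only [Pd, Sy]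
    split_ifs
    · rw [map_smul, lin_mon _ (fun l l' hl => sy_perm h (hl.map b))]
    · simp

/-- averaged antisymmetric element -/
noncomputable def Ea (K : Type u) [Field K] {B : Type*} [NonUnitalNonAssocRing B] [Module K B]
    (b : ℕ → B) (k : ℕ) (L : List ℕ) : B :=
  ((L.length + 1 : ℕ) : K)⁻¹ • (L.map (fun p => an (b p) (b k) ((L.erase p).map b))).sum

omit [IsScalarTower K B B] [SMulCommClass K B B] in
theorem Ea_perm (h : Five B) (b : ℕ → B) (k : ℕ) (L L' : List ℕ) (hL : L.Perm L') :
    Ea K b k L = Ea K b k L' := by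
  rw [Ea, Ea, hL.length_eq]
  congr 1
  have e : (fun p => an (b p) (b k) ((L.erase p).map b)) =
      (fun p => an (b p) (b k) ((L'.erase p).map b)) := by
    funext p
    exact an_perm h _ _ ((hL.erase p).map b)
  rw [e]
  exact (hL.map _).sum_eq

omit [IsScalarTower K B B] [SMulCommClass K B B] in
theorem Ea_head (h : Five B) (b : ℕ → B) (i j : ℕ) (l : List ℕ) :
    ((i :: l).map (fun p => an (b p) (b j) (((i :: l).erase p).map b))).sum =
      an (b i) (b j) (l.map b) +
        (l.map (fun p => an (b p) (b j) (b i :: (l.erase p).map b))).sum := by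
  rw [List.map_cons, List.sum_cons, List.erase_cons_head]
  congr 2
  apply List.map_congr_left
  intro p hp
  apply an_perm h
  have : ((i :: l).erase p).Perm (i :: l.erase p) := by
    by_cases hip : i = p
    · subst hip
      rw [List.erase_cons_head]
      exact List.perm_cons_erase hp
    · rw [List.erase_cons_tail (by simpa using hip)]
  exact this.map b

theorem an_eq_Ea [CharZero K] (h : Five B) (b : ℕ → B) (i j : ℕ) (l : List ℕ) :
    Ea K b j (i :: l) - Ea K b i (j :: l) = an (b i) (b j) (l.map b) := by
  rw [Ea, Ea, List.length_cons, List.length_cons, ← smul_sub, Ea_head h, Ea_head h,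
    an_symm (b j) (b i)]
  have key : (l.map (fun p => an (b p) (b j) (b i :: (l.erase p).map b))).sum -
      (l.map (fun p => an (b p) (b i) (b j :: (l.erase p).map b))).sum =
        (l.length : K) • an (b i) (b j) (l.map b) := by
    have e1 : ∀ p ∈ l, an (b p) (b j) (b i :: (l.erase p).map b) =
        an (b p) (b i) (b j :: (l.erase p).map b) + an (b i) (b j) (l.map b) := by
      intro p hp
      have e2 : an (b i) (b j) (l.map b) = an (b i) (b j) (b p :: (l.erase p).map b) := by
        apply an_perm h
        exact (List.perm_cons_erase hp).map b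
      rw [e2, an_cyc h (b i) (b j) (b p)]
      abel
    rw [List.map_congr_left e1, List.sum_map_add]
    simp [Nat.cast_smul_eq_nsmul K]
  have e3 : an (b i) (b j) (l.map b) +
      (l.map (fun p => an (b p) (b j) (b i :: (l.erase p).map b))).sum -
      (-an (b i) (b j) (l.map b) + (l.map (fun p => an (b p) (b i) (b j :: (l.erase p).map b))).sum)
      = ((l.length + 1 + 1 : ℕ) : K) • an (b i) (b j) (l.map b) := by
    push_cast
    rw [add_smul, add_smul, one_smul, ← key]
    abel
  rw [e3, smul_smul, inv_mul_cancel₀, one_smul]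
  exact_mod_cast (by omega : l.length + 1 + 1 ≠ 0)

/-- the linear map recovering the antisymmetric part -/
noncomputable def linA (b : ℕ → B) : (ℕ →₀ MvPolynomial ℕ K) →ₗ[K] B :=
  Finsupp.lsum K (fun k => lin (Ea K b k))

theorem linA_Qd [CharZero K] (h : Five B) (b : ℕ → B) (n : ℕ) (d : Dat K) :
    linA b (Qd n d) = An b n d := by
  rcases d with i | ⟨e, i, j, l⟩
  · simp [Qd, An]
  · simp only [Qd, An]
    split_ifs
    · rw [map_smul, map_sub, linA, Finsupp.lsum_single, Finsupp.lsum_single,
        lin_mon _ (Ea_perm h b j), lin_mon _ (Ea_perm h b i), an_eq_Ea h]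
    · simp

end Pool.Agent.Helper94.TS
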