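import Pool.Agent.Helper4.TSpaceDefs

set_option autoImplicit false

universe u

namespace Pool.Agent.Helper94.TS

variable {K : Type u} [Field K]

/-- The variety defined by `E` is Specht: every variety contained in it (the class of all algebras
satisfying the identities `E'`) can be defined by a finite set of identities. -/
def IsSpecht (E : Set (Pool.Agent.Helper4.TSpace.Poly K)) : Prop :=
  ∀ E' : Set (Pool.Agent.Helper4.TSpace.Poly K),
    (∀ B : Pool.Agent.Helper4.TSpace.NAlgebra K, Pool.Agent.Helper4.TSpace.InVariety E' B →
      Pool.Agent.Helper4.TSpace.InVariety E B) →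
    ∃ S : Set (Pool.Agent.Helper4.TSpace.Poly K), S.Finite ∧
      ∀ B : Pool.Agent.Helper4.TSpace.NAlgebra K, Pool.Agent.Helper4.TSpace.InVariety S B ↔
        Pool.Agent.Helper4.TSpace.InVariety E' B

end Pool.Agent.Helper94.TS
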