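import Pool.Agent.Helper94.TS.Van
import Pool.Agent.Helper94.TS.SpechtDef
import Pool.Agent.Helper4.TSpaceProof

set_option autoImplicit false

universe u

namespace Pool.Agent.Helper94.TS

open Pool.Agent.Helper4.TSpace (NAlgebra value InVariety identities)
open FreeNonUnitalNonAssocAlgebra

variable {K : Type u} [Field K]

/-- the five identities as polynomials -/
noncomputable def five : Fin 5 → Pool.Agent.Helper4.TSpace.Poly K :=
  ![(of K 0 * of K 1) * (of K 2 * of K 3),
    of K 0 * (of K 1 * of K 2) + (of K 1 * of K 2) * of K 0,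
    ((of K 0 * of K 1) * of K 2) * of K 3 - ((of K 0 * of K 1) * of K 3) * of K 2,
    (of K 0 * of K 1 + of K 1 * of K 0) * of K 2 - (of K 0 * of K 2 + of K 2 * of K 0) * of K 1,
    (of K 0 * of K 1 - of K 1 * of K 0) * of K 2 + (of K 1 * of K 2 - of K 2 * of K 1) * of K 0
      + (of K 2 * of K 0 - of K 0 * of K 2) * of K 1]

theorem value_of (B : NAlgebra K) (b : ℕ → B.carrier) (i : ℕ) : value B b (of K i) = b i :=
  lift_of_apply _ _ _

theorem value_mul (B : NAlgebra K) (b : ℕ → B.carrier) (f g : Pool.Agent.Helper4.TSpace.Poly K) :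
    value B b (f * g) = value B b f * value B b g := map_mul _ _ _

theorem value_add (B : NAlgebra K) (b : ℕ → B.carrier) (f g : Pool.Agent.Helper4.TSpace.Poly K) :
    value B b (f + g) = value B b f + value B b g := map_add _ _ _

theorem value_sub (B : NAlgebra K) (b : ℕ → B.carrier) (f g : Pool.Agent.Helper4.TSpace.Poly K) :
    value B b (f - g) = value B b f - value B b g := map_sub _ _ _

theorem five_iff (B : NAlgebra K) :
    InVariety (Set.range (five (K := K))) B ↔ Five B.carrier := by
  constructor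
  · intro h
    have hb : ∀ x y z t : B.carrier, ∃ b : ℕ → B.carrier, b 0 = x ∧ b 1 = y ∧ b 2 = z ∧ b 3 = t :=
      fun x y z t => ⟨fun i => if i = 0 then x else if i = 1 then y else if i = 2 then z else t,
        by simp, by simp, by simp, by simp⟩
    refine ⟨?_, ?_, ?_, ?_, ?_⟩
    · intro x y z t
      obtain ⟨b, h0, h1, h2, h3⟩ := hb x y z t
      have := h _ ⟨0, rfl⟩ b
      simp only [five, Matrix.cons_val_zero, value_mul, value_of, h0, h1, h2, h3] at this
      exact this
    · intro x y z
      obtain ⟨b, h0, h1, h2, h3⟩ := hb x y z 0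
      have := h _ ⟨1, rfl⟩ b
      simp only [five, Matrix.cons_val_one, value_mul, value_add, value_of, h0, h1, h2,
        Matrix.cons_val_zero] at this
      exact this
    · intro x y z t
      obtain ⟨b, h0, h1, h2, h3⟩ := hb x y z t
      have := h _ ⟨2, rfl⟩ b
      change value B b (((of K 0 * of K 1) * of K 2) * of K 3 -
        ((of K 0 * of K 1) * of K 3) * of K 2) = 0 at this
      simp only [value_mul, value_sub, value_of, h0, h1, h2, h3] at this
      exact sub_eq_zero.1 this
    · intro x y z
      obtain ⟨b, h0, h1, h2, h3⟩ := hb x y z 0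
      have := h _ ⟨3, rfl⟩ b
      change value B b ((of K 0 * of K 1 + of K 1 * of K 0) * of K 2 -
        (of K 0 * of K 2 + of K 2 * of K 0) * of K 1) = 0 at this
      simp only [value_mul, value_sub, value_add, value_of, h0, h1, h2] at this
      exact sub_eq_zero.1 this
    · intro x y z
      obtain ⟨b, h0, h1, h2, h3⟩ := hb x y z 0
      have := h _ ⟨4, rfl⟩ b
      change value B b ((of K 0 * of K 1 - of K 1 * of K 0) * of K 2 +
        (of K 1 * of K 2 - of K 2 * of K 1) * of K 0
        + (of K 2 * of K 0 - of K 0 * of K 2) * of K 1) = 0 at this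
      simp only [value_mul, value_sub, value_add, value_of, h0, h1, h2] at this
      exact this
  · intro h
    rintro _ ⟨i, rfl⟩ b
    fin_cases i
    · change value B b ((of K 0 * of K 1) * (of K 2 * of K 3)) = 0
      simp only [value_mul, value_of]
      exact h.h1 _ _ _ _
    · change value B b (of K 0 * (of K 1 * of K 2) + (of K 1 * of K 2) * of K 0) = 0
      simp only [value_mul, value_add, value_of]
      exact h.h2 _ _ _
    · change value B b (((of K 0 * of K 1) * of K 2) * of K 3 -
        ((of K 0 * of K 1) * of K 3) * of K 2) = 0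
      simp only [value_mul, value_sub, value_of]
      exact sub_eq_zero.2 (h.h3 _ _ _ _)
    · change value B b ((of K 0 * of K 1 + of K 1 * of K 0) * of K 2 -
        (of K 0 * of K 2 + of K 2 * of K 0) * of K 1) = 0
      simp only [value_mul, value_sub, value_add, value_of]
      exact sub_eq_zero.2 (h.h4 _ _ _)
    · change value B b ((of K 0 * of K 1 - of K 1 * of K 0) * of K 2 +
        (of K 1 * of K 2 - of K 2 * of K 1) * of K 0
        + (of K 2 * of K 0 - of K 0 * of K 2) * of K 1) = 0
      simp only [value_mul, value_sub, value_add, value_of]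
      exact h.h5 _ _ _

theorem five_BA : Five (Pool.Agent.Helper4.TSpace.Alg K) where
  h1 x y z t := by
    apply Pool.Agent.Helper4.TSpace.Alg.ext'
    · rfl
    · rw [Pool.Agent.Helper4.TSpace.Alg.mul_snd, Pool.Agent.Helper4.TSpace.Alg.mul_fst,
        Pool.Agent.Helper4.TSpace.Alg.mul_fst, Pool.Agent.Helper4.TSpace.Alg.zero_snd]
      ring
  h2 x y z := by
    apply Pool.Agent.Helper4.TSpace.Alg.ext'
    · rw [Pool.Agent.Helper4.TSpace.Alg.add_fst, Pool.Agent.Helper4.TSpace.Alg.mul_fst,
        Pool.Agent.Helper4.TSpace.Alg.mul_fst, Pool.Agent.Helper4.TSpace.Alg.zero_fst, add_zero]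
    · simp only [Pool.Agent.Helper4.TSpace.Alg.mul_snd, Pool.Agent.Helper4.TSpace.Alg.mul_fst,
        Pool.Agent.Helper4.TSpace.Alg.add_snd, Pool.Agent.Helper4.TSpace.Alg.zero_snd]
      ring
  h3 x y z t := by
    apply Pool.Agent.Helper4.TSpace.Alg.ext'
    · rfl
    · simp only [Pool.Agent.Helper4.TSpace.Alg.mul_snd, Pool.Agent.Helper4.TSpace.Alg.mul_fst]
      ring
  h4 x y z := by
    apply Pool.Agent.Helper4.TSpace.Alg.ext'
    · rfl
    · simp only [Pool.Agent.Helper4.TSpace.Alg.mul_snd, Pool.Agent.Helper4.TSpace.Alg.mul_fst,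
        Pool.Agent.Helper4.TSpace.Alg.add_snd, Pool.Agent.Helper4.TSpace.Alg.add_fst]
      ring
  h5 x y z := by
    have hs : ∀ p q : Pool.Agent.Helper4.TSpace.Alg K, (p - q).1 = p.1 - q.1 := fun _ _ => rfl
    have hs' : ∀ p q : Pool.Agent.Helper4.TSpace.Alg K, (p - q).2 = p.2 - q.2 := fun _ _ => rfl
    apply Pool.Agent.Helper4.TSpace.Alg.ext'
    · simp only [Pool.Agent.Helper4.TSpace.Alg.mul_fst, Pool.Agent.Helper4.TSpace.Alg.add_fst,
        Pool.Agent.Helper4.TSpace.Alg.zero_fst, add_zero]
    · simp only [Pool.Agent.Helper4.TSpace.Alg.mul_snd, Pool.Agent.Helper4.TSpace.Alg.mul_fst,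
        Pool.Agent.Helper4.TSpace.Alg.add_snd, hs, hs', Pool.Agent.Helper4.TSpace.Alg.zero_snd]
      ring

theorem range_five_subset :
    Set.range (five (K := K)) ⊆ identities (Pool.Agent.Helper4.TSpace.BA K) :=
  fun _ hf b => (five_iff (Pool.Agent.Helper4.TSpace.BA K)).2 five_BA _ hf b

end Pool.Agent.Helper94.TS
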