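import Pool.Agent.Helper94.TS.PQ

set_option autoImplicit false

universe u

namespace Pool.Agent.Helper94.TS

open Pool.Agent.Helper4.TSpace (NAlgebra value InVariety identities)

variable {K : Type u} [Field K]

/-- symmetric polynomial part in degree `n` -/
noncomputable def PP (f : Pool.Agent.Helper4.TSpace.Poly K) (n : ℕ) : MvPolynomial ℕ K :=
  ws f (fun w => Pd n (nf w))

/-- antisymmetric polynomial part in degree `n` -/
noncomputable def QQ (f : Pool.Agent.Helper4.TSpace.Poly K) (n : ℕ) : ℕ →₀ MvPolynomial ℕ K :=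
  ws f (fun w => Qd n (nf w))

theorem two_hp [CharZero K] (B : NAlgebra K) (h : Five B.carrier) (b : ℕ → B.carrier)
    (f : Pool.Agent.Helper4.TSpace.Poly K) (n : ℕ) (hn : 2 ≤ n) :
    (2 : K) • hp B b f n = lin (fun l => sy (l.map b)) (PP f n) + linA b (QQ f n) := by
  rw [PP, QQ, ws_map, ws_map, hp, ← ws_smul, ← ws_add]
  congr 1
  funext w
  rw [two_Th b n hn, lin_Pd h, linA_Qd h]

theorem linP_eq (B : NAlgebra K) (h : Five B.carrier) (b : ℕ → B.carrier)
    (f : Pool.Agent.Helper4.TSpace.Poly K) (n : ℕ) :
    lin (fun l => sy (l.map b)) (PP f n) = ws f (fun w => Sy b n (nf (K := K) w)) := by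
  rw [PP, ws_map]
  congr 1
  funext w
  rw [lin_Pd h]

theorem linQ_eq [CharZero K] (B : NAlgebra K) (h : Five B.carrier) (b : ℕ → B.carrier)
    (f : Pool.Agent.Helper4.TSpace.Poly K) (n : ℕ) :
    linA b (QQ f n) = ws f (fun w => An b n (nf (K := K) w)) := by
  rw [QQ, ws_map]
  congr 1
  funext w
  rw [linA_Qd h]

section

variable {B : Type*} [NonUnitalNonAssocRing B] [Module K B]
  [IsScalarTower K B B] [SMulCommClass K B B]

theorem opl_map_diag (c : ℕ → K) (y : B) (l : List ℕ) (v : B) :
    opl (l.map (fun i => c i • y)) v = (l.map c).prod • opl (List.replicate l.length y) v := by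
  induction l generalizing v with
  | nil => simp [opl]
  | cons a l ih =>
    rw [List.map_cons, opl_cons, ih, List.map_cons, List.prod_cons, List.length_cons,
      List.replicate_succ, opl_cons, mul_smul_comm, opl_smul, smul_smul, mul_comm]

theorem Sy_diag (c : ℕ → K) (y : B) (n : ℕ) (d : Dat K) :
    Sy (fun i => c i • y) n d = MvPolynomial.eval c (Pd n d) • sy (List.replicate n y) := by
  rcases d with i | ⟨e, i, j, l⟩
  · simp [Sy, Pd]
  · simp only [Sy, Pd]
    by_cases h : l.length + 2 = n
    · rw [if_pos h, if_pos h, MvPolynomial.smul_eval, eval_mon, List.map_cons, List.map_cons,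
        sy_cons, opl_map_diag, ← h, List.replicate_succ, List.replicate_succ, sy_cons,
        List.map_cons, List.map_cons, List.prod_cons, List.prod_cons, smul_mul_smul_comm,
        smul_mul_smul_comm, mul_comm (c j) (c i), ← smul_add, opl_smul, smul_smul, smul_smul]
      congr 1
      ring
    · rw [if_neg h, if_neg h]
      simp

theorem PF_opl (c d : ℕ → K) (y z : B) (l : List ℕ) (v : B) : ∃ M : ℕ → B,
    PF (fun t : K => opl (l.map (fun i => c i • y + (t * d i) • z)) v) M ∧
      M 0 = (l.map c).prod • opl (List.replicate l.length y) v := by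
  induction l generalizing v with
  | nil => exact ⟨_, PF.const v, by simp [opl]⟩
  | cons a l ih =>
    obtain ⟨M1, h1, h10⟩ := ih (v * y)
    obtain ⟨M2, h2, _⟩ := ih (v * z)
    refine ⟨_, ((h1.smul (c a)).add ((h2.smul (d a)).tmul)).congr (fun t => ?_) (fun _ => rfl), ?_⟩
    · rw [List.map_cons, opl_cons, mul_add, mul_smul_comm, mul_smul_comm, opl_add, opl_smul,
        opl_smul, smul_smul]
    · simp only [if_true, add_zero]
      rw [h10, List.map_cons, List.prod_cons, List.length_cons, List.replicate_succ, opl_cons,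
        smul_smul]

theorem an_gen (c d : ℕ → K) (y z : B) (t : K) (i j : ℕ) (l : List B) :
    an (c i • y + (t * d i) • z) (c j • y + (t * d j) • z) l =
      t • ((c i * d j - d i * c j) • an y z l) := by
  rw [an, an, ← opl_smul, ← opl_smul]
  congr 1
  simp only [add_mul, mul_add, smul_mul_smul_comm]
  module

theorem PF_An (c : ℕ → K) (k : ℕ) (y z : B) (n : ℕ) (d : Dat K) : ∃ M : ℕ → B,
    PF (fun t : K => An (fun i => c i • y + (t * (if i = k then 1 else 0)) • z) n d) M ∧
      M 1 = MvPolynomial.eval c (Qd n d k) • an y z (List.replicate (n - 2) y) := by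
  rcases d with i | ⟨e, i, j, l⟩
  · exact ⟨_, PF.zero, by simp [Qd]⟩
  · simp only [An, Qd]
    by_cases h : l.length + 2 = n
    · obtain ⟨M, hM, hM0⟩ := PF_opl c (fun i => if i = k then 1 else 0) y z l (y * z - z * y)
      refine ⟨_, (((hM.smul (c i * (if j = k then 1 else 0) - (if i = k then 1 else 0) * c j)).tmul).smul
        e).congr (fun t => ?_) (fun _ => rfl), ?_⟩
      · rw [if_pos h, an_gen c (fun i => if i = k then 1 else 0)]
        rfl
      · simp only [one_ne_zero, if_false, Nat.sub_self]
        rw [hM0, if_pos h, Finsupp.smul_apply, Finsupp.sub_apply, Finsupp.single_apply,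
          Finsupp.single_apply, MvPolynomial.smul_eval, map_sub]
        have hn : n - 2 = l.length := by omega
        rw [hn, an, smul_smul, smul_smul]
        congr 1
        have e1 : ∀ p : Prop, ∀ _ : Decidable p, ∀ q : MvPolynomial ℕ K,
            MvPolynomial.eval c (if p then q else 0) = (if p then 1 else 0) * MvPolynomial.eval c q := by
          intro p _ q
          split_ifs <;> simp
        rw [e1, e1, eval_mon, eval_mon, List.map_cons, List.map_cons, List.prod_cons,
          List.prod_cons]
        ring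
    · refine ⟨_, PF.zero.congr (fun t => ?_) (fun _ => rfl), ?_⟩
      · rw [if_neg h]
      · rw [if_neg h]; simp

end

theorem an_zero_of_QQ [CharZero K] (B : NAlgebra K) (h : Five B.carrier)
    (f : Pool.Agent.Helper4.TSpace.Poly K) (n : ℕ) (h0 : ∀ b : ℕ → B.carrier, linA b (QQ f n) = 0)
    (hQ : QQ f n ≠ 0) (u z : B.carrier) (l : List B.carrier) (hl : l.length = n - 2) :
    an u z l = 0 := by
  refine an_van (K := K) h (n - 2) (fun y z => ?_) u z l hl
  obtain ⟨k, hk⟩ := Finsupp.ne_iff.1 hQ
  rw [Finsupp.zero_apply] at hk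
  obtain ⟨c, hc⟩ : ∃ c : ℕ → K, MvPolynomial.eval c (QQ f n k) ≠ 0 := by
    by_contra hcon
    push Not at hcon
    apply hk
    apply MvPolynomial.funext
    intro x
    rw [hcon x, map_zero]
  choose M hM hM1 using PF_An (B := B.carrier) c k y z n
  have hPF := PF_ws f (fun w => hM (nf (K := K) w))
  have hv := hPF.vanish (fun t => ?_) 1
  · have e : ws f (fun w => M (nf (K := K) w) 1) =
        MvPolynomial.eval c (QQ f n k) • an y z (List.replicate (n - 2) y) := by
      have e2 : QQ f n k = ws f (fun w => Qd n (nf (K := K) w) k) := by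
        rw [QQ]
        exact ws_map f _ (Finsupp.lapply k)
      have e3 : MvPolynomial.eval c (ws f (fun w => Qd n (nf (K := K) w) k)) =
          ws f (fun w => MvPolynomial.eval c (Qd n (nf (K := K) w) k)) :=
        ws_map f _ (MvPolynomial.aeval c : MvPolynomial ℕ K →ₐ[K] K).toLinearMap
      rw [e2, e3]
      have e4 := ws_map f (fun w => MvPolynomial.eval c (Qd n (nf (K := K) w) k))
        (LinearMap.toSpanSingleton K B.carrier (an y z (List.replicate (n - 2) y)))
      rw [LinearMap.toSpanSingleton_apply] at e4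
      rw [e4]
      congr 1
      funext w
      rw [LinearMap.toSpanSingleton_apply, hM1]
    rw [e] at hv
    exact (smul_eq_zero.1 hv).resolve_left hc
  · rw [← linQ_eq B h]
    exact h0 _

theorem sy_zero_of_PP [CharZero K] (B : NAlgebra K) (h : Five B.carrier)
    (f : Pool.Agent.Helper4.TSpace.Poly K) (n : ℕ) (hn : 2 ≤ n)
    (h0 : ∀ b : ℕ → B.carrier, hp B b f n = 0)
    (hP : PP f n ≠ 0) (l : List B.carrier) (hl : l.length = n) : sy l = 0 := by
  refine (symMul_sy (K := K) h n hn).polar (fun y => ?_) l hl
  obtain ⟨c, hc⟩ : ∃ c : ℕ → K, MvPolynomial.eval c (PP f n) ≠ 0 := by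
    by_contra hcon
    push Not at hcon
    apply hP
    apply MvPolynomial.funext
    intro x
    rw [hcon x, map_zero]
  have e := two_hp B h (fun i => c i • y) f n hn
  rw [h0, smul_zero, linP_eq B h, linQ_eq B h] at e
  have e1 : ws f (fun w => An (fun i => c i • y) n (nf (K := K) w)) = 0 := by
    apply ws_zero
    intro w
    rcases nf (K := K) w with i | ⟨e, i, j, l⟩
    · rfl
    · simp only [An]
      split_ifs
      · have : an (c i • y) (c j • y) (l.map (fun i => c i • y)) = 0 := by
          rw [an, smul_mul_smul_comm, smul_mul_smul_comm, mul_comm, sub_self, opl_zero]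
        rw [this, smul_zero]
      · rfl
  have e2 : ws f (fun w => Sy (fun i => c i • y) n (nf (K := K) w)) =
      MvPolynomial.eval c (PP f n) • sy (List.replicate n y) := by
    have e3 : MvPolynomial.eval c (PP f n) =
        ws f (fun w => MvPolynomial.eval c (Pd n (nf (K := K) w))) :=
      ws_map f _ (MvPolynomial.aeval c : MvPolynomial ℕ K →ₐ[K] K).toLinearMap
    rw [e3]
    have e4 := ws_map f (fun w => MvPolynomial.eval c (Pd n (nf (K := K) w)))
      (LinearMap.toSpanSingleton K B.carrier (sy (List.replicate n y)))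
    rw [LinearMap.toSpanSingleton_apply] at e4
    rw [e4]
    congr 1
    funext w
    rw [LinearMap.toSpanSingleton_apply, Sy_diag]
  rw [e1, e2, add_zero] at e
  exact (smul_eq_zero.1 e.symm).resolve_left hc

end Pool.Agent.Helper94.TS
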